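import Pool.Agent.Lib.MP_e46711_an.H99.B4c

/-!
# Module B4: `LimitStatement`
-/

open Set Filter Topology MeasureTheory
open scoped ContDiff

namespace Pool.Agent.Lib.MP_e46711_an.H99

open Pool.Agent.Lib.MP_e46711_an

/-- Monotonicity: the difference of the defects. -/
lemma defect_sub_ge {p lam ℓ : ℝ} (hp : 0 < p) (hp1 : p < 1) (hlam : 0 ≤ lam) (hℓ : 0 < ℓ)
    {h : ℝ → ℝ} (hh : Continuous h) (hpos : ∀ s, 0 < h s) {f g : ℝ → ℝ} (hf : C1p ℓ f)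
    (hg : C1p ℓ g) :
    En h (fun s => f s - g s) 0 ℓ - lam * Sm h (fun s => f s - g s) 0 ℓ ≤
      defect p lam ℓ h f (fun s => f s - g s) - defect p lam ℓ h g (fun s => f s - g s) := by
  have hgc := continuous_gg hp hp1
  have cf := c1_cont hf
  have cg := c1_cont hg
  have df := c1_contDeriv hf
  have dg := c1_contDeriv hg
  have cψ := c1_cont (c1_sub hf hg)
  have dψ := c1_contDeriv (c1_sub hf hg)
  have i1 : IntervalIntegrable (fun s => h s * deriv f s * deriv (fun s => f s - g s) s)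
      volume 0 ℓ := ((hh.mul df).mul dψ).intervalIntegrable _ _
  have i2 : IntervalIntegrable (fun s => h s * deriv g s * deriv (fun s => f s - g s) s)
      volume 0 ℓ := ((hh.mul dg).mul dψ).intervalIntegrable _ _
  have i3 : IntervalIntegrable (fun s => h s * gg p (f s) * (f s - g s)) volume 0 ℓ :=
    ((hh.mul (hgc.comp cf)).mul cψ).intervalIntegrable _ _
  have i4 : IntervalIntegrable (fun s => h s * gg p (g s) * (f s - g s)) volume 0 ℓ :=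
    ((hh.mul (hgc.comp cg)).mul cψ).intervalIntegrable _ _
  have i5 : IntervalIntegrable (fun s => h s * (f s - g s) ^ 2) volume 0 ℓ :=
    (hh.mul (cψ.pow 2)).intervalIntegrable _ _
  have e1 : En h (fun s => f s - g s) 0 ℓ =
      (∫ s in (0:ℝ)..ℓ, h s * deriv f s * deriv (fun s => f s - g s) s) -
        ∫ s in (0:ℝ)..ℓ, h s * deriv g s * deriv (fun s => f s - g s) s := by
    rw [← intervalIntegral.integral_sub i1 i2, En]
    refine intervalIntegral.integral_congr fun s _ => ?_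
    simp only [c1_deriv_sub hf hg]
    ring
  have e2 : (∫ s in (0:ℝ)..ℓ, h s * gg p (f s) * (f s - g s)) -
      (∫ s in (0:ℝ)..ℓ, h s * gg p (g s) * (f s - g s)) ≤ Sm h (fun s => f s - g s) 0 ℓ := by
    rw [← intervalIntegral.integral_sub i3 i4, Sm]
    refine intervalIntegral.integral_mono_on hℓ.le (i3.sub i4) i5 fun s _ => ?_
    have := mul_le_mul_of_nonneg_left (gg_mul_le hp (f s) (g s)) (hpos s).le
    nlinarith
  unfold defect
  rw [e1]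
  have := mul_le_mul_of_nonneg_left e2 hlam
  linarith

/-- weighted averages -/
lemma avg_sq_le {ℓ : ℝ} (hℓ : 0 < ℓ) {w f : ℝ → ℝ} (hw : Measurable w) {K : ℝ}
    (hK : ∀ s, |w s| ≤ K) (hf : C1p ℓ f) :
    (∫ s in (0:ℝ)..ℓ, w s * f s) ^ 2 ≤ (∫ s in (0:ℝ)..ℓ, w s ^ 2) * ∫ s in (0:ℝ)..ℓ, f s ^ 2 := by
  obtain ⟨K', -, hK'⟩ := bdd_per hℓ (c1_cont hf) hf.2
  rw [intervalIntegral.integral_of_le hℓ.le, intervalIntegral.integral_of_le hℓ.le,
    intervalIntegral.integral_of_le hℓ.le]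
  exact cs_L2 (MemLp.of_bound hw.aestronglyMeasurable K (Eventually.of_forall hK))
    (MemLp.of_bound (c1_cont hf).aestronglyMeasurable K' (Eventually.of_forall hK'))

lemma avg_sub {ℓ : ℝ} {w f g : ℝ → ℝ} (hw : Measurable w) {K : ℝ}
    (hK : ∀ s, |w s| ≤ K) (hf : Continuous f) (hg : Continuous g) :
    ∫ s in (0:ℝ)..ℓ, w s * (f s - g s) =
      (∫ s in (0:ℝ)..ℓ, w s * f s) - ∫ s in (0:ℝ)..ℓ, w s * g s := by
  have hi : ∀ f : ℝ → ℝ, Continuous f → IntervalIntegrable (fun s => w s * f s) volume 0 ℓ := by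
    intro f hf
    have h1 : IntervalIntegrable w volume 0 ℓ :=
      ⟨Integrable.of_bound hw.aestronglyMeasurable K (Eventually.of_forall hK),
        Integrable.of_bound hw.aestronglyMeasurable K (Eventually.of_forall hK)⟩
    exact h1.mul_continuousOn hf.continuousOn
  rw [← intervalIntegral.integral_sub (hi f hf) (hi g hg)]
  exact intervalIntegral.integral_congr fun s _ => by ring

/-- the energy of a weak solution -/
lemma energy_le {p lam ℓ δ M H : ℝ} (hp : 0 < p) (hp1 : p < 1) (hlam : 0 ≤ lam) {h : ℝ → ℝ}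
    (hh : Continuous h) (hpos : ∀ s, 0 < h s) (hH : ∀ s, |h s| ≤ H)
    (hM : ∀ᵐ z ∂muT ℓ, |om ℓ h δ z - 1| ≤ M) {U V W : ℝ × ℝ → ℝ}
    (hsol : WSol p lam ℓ h δ U V W)
    (heq : Bil ℓ h δ V W V W = lam * Inu ℓ h δ (fun z => gg p (U z) * U z)) :
    Bil ℓ h δ V W V W ≤ lam * (H * (M + 1) / 2 * ∫ z, U z ^ 2 ∂muT ℓ) := by
  rw [heq]
  refine mul_le_mul_of_nonneg_left ?_ hlam
  have hom : ∀ᵐ z ∂muT ℓ, 0 ≤ h z.1 * om ℓ h δ z / 2 ∧ h z.1 * om ℓ h δ z / 2 ≤ H * (M + 1) / 2 := by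
    filter_upwards [hM] with z hz
    have h1 : 0 < om ℓ h δ z := Real.exp_pos _
    have h2 := (abs_le.1 hz).2
    have h3 := hpos z.1
    have h4 := (le_abs_self _).trans (hH z.1)
    refine ⟨by positivity, ?_⟩
    have := mul_le_mul h4 (by linarith : om ℓ h δ z ≤ M + 1) h1.le (by linarith)
    linarith
  have hw : MemLp (fun z => (h z.1 * om ℓ h δ z / 2) * U z) 2 (muT ℓ) := by
    refine memLp_mul hsol.h1.mU
      (((hh.comp continuous_fst).mul (continuous_om hh)).div_const _).aestronglyMeasurable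
      (K := H * (M + 1) / 2) ?_
    filter_upwards [hom] with z hz
    rw [abs_of_nonneg hz.1]
    exact hz.2
  have i1 : Integrable (fun z => gg p (U z) * U z * (h z.1 * om ℓ h δ z / 2)) (muT ℓ) := by
    have := (memLp_gg hp hp1 hsol.h1.mU).integrable_mul hw
    refine this.congr (Eventually.of_forall fun z => ?_)
    simp only [Pi.mul_apply]
    ring
  rw [Inu, ← integral_const_mul]
  refine integral_mono_ae i1 (hsol.h1.mU.integrable_sq.const_mul _) ?_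
  filter_upwards [hom] with z hz
  have h1 := gg_mul_le hp (U z) 0
  rw [gg_zero, sub_zero, sub_zero] at h1
  calc gg p (U z) * U z * (h z.1 * om ℓ h δ z / 2)
      ≤ U z ^ 2 * (h z.1 * om ℓ h δ z / 2) := mul_le_mul_of_nonneg_right h1 hz.1
    _ ≤ U z ^ 2 * (H * (M + 1) / 2) := mul_le_mul_of_nonneg_left hz.2 (sq_nonneg _)
    _ = H * (M + 1) / 2 * U z ^ 2 := mul_comm _ _

lemma int_sq_sub_le {ℓ : ℝ} {f g k : ℝ × ℝ → ℝ} (hf : MemLp f 2 (muT ℓ)) (hg : MemLp g 2 (muT ℓ))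
    (hk : MemLp k 2 (muT ℓ)) :
    ∫ z, (f z - k z) ^ 2 ∂muT ℓ ≤
      2 * (∫ z, (f z - g z) ^ 2 ∂muT ℓ) + 2 * ∫ z, (g z - k z) ^ 2 ∂muT ℓ := by
  have i1 : Integrable (fun z => 2 * (f z - g z) ^ 2) (muT ℓ) :=
    (hf.sub hg).integrable_sq.const_mul 2
  have i2 : Integrable (fun z => 2 * (g z - k z) ^ 2) (muT ℓ) :=
    (hg.sub hk).integrable_sq.const_mul 2
  rw [← integral_const_mul, ← integral_const_mul, ← integral_add i1 i2]
  refine integral_mono (hf.sub hk).integrable_sq (i1.add i2) fun z => ?_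
  change (f z - k z) ^ 2 ≤ 2 * (f z - g z) ^ 2 + 2 * (g z - k z) ^ 2
  nlinarith [sq_nonneg ((f z - g z) - (g z - k z))]

/-- The statement for `δ n ≤ 1`. -/
theorem limit_aux (hB : H1TBasic) (hA : H1TAverage) (hW : WeakExtend) (hF : FormCompare)
    (p l0 l1 l3 : ℝ) (R : Ring1D p l0 l1 l3) (lam : ℝ) (hlam : lam ∈ Ioo 0 l3)
    (δ : ℕ → ℝ) (hδ : ∀ n, 0 < δ n) (hδ1 : ∀ n, δ n ≤ 1) (hδ0 : Tendsto δ atTop (𝓝 0))
    (U V W : ℕ → ℝ × ℝ → ℝ) (hsol : ∀ n, WSol p lam R.ℓ R.h (δ n) (U n) (V n) (W n))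
    (K : ℝ) (hK : ∀ n, ∫ z, U n z ^ 2 ∂muT R.ℓ ≤ K) :
    ∃ ns : ℕ → ℕ, StrictMono ns ∧ ∃ v F, Sol p lam R.ℓ R.h v F ∧
      Tendsto (fun k => ∫ z, (U (ns k) z - v z.1) ^ 2 ∂muT R.ℓ) atTop (𝓝 0) := by
  have hp := R.hp0
  have hp1 := R.hp1
  have hℓ := R.hℓ
  have hh : Continuous R.h := R.smooth.continuous
  have hhd : Continuous (deriv R.h) := R.smooth.continuous_deriv (by simp)
  have hh1 : C1p R.ℓ R.h := ⟨R.smooth.of_le (by simp), R.per⟩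
  obtain ⟨H, hH0, hH⟩ := bdd_per hℓ hh R.per
  obtain ⟨H', hH'0, hH'⟩ := bdd_per hℓ hhd (c1_perDeriv hh1)
  obtain ⟨M, hM0, hM⟩ := om_bound hℓ hH0 hH
  obtain ⟨CF, hCF0, hCF⟩ := hF R.ℓ hℓ R.h R.smooth R.per R.pos
  have hK0 : 0 ≤ K := (integral_nonneg fun z => sq_nonneg _).trans (hK 0)
  -- energy
  set C1 : ℝ := CF * (lam * (H * (M + 1) / 2 * K)) with hC1
  have hC10 : 0 ≤ C1 := by
    have := hlam.1
    positivity
  have hWn : ∀ n, ∫ z, W n z ^ 2 ∂muT R.ℓ ≤ C1 * δ n ^ 2 := by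
    intro n
    have hMn : ∀ᵐ z ∂muT R.ℓ, |om R.ℓ R.h (δ n) z - 1| ≤ M := by
      filter_upwards [hM (δ n) ⟨hδ n, hδ1 n⟩] with z hz
      exact hz.trans (mul_le_of_le_one_right hM0.le (hδ1 n))
    have h1 := energy_le hp hp1 hlam.1.le hh R.pos hH hMn (hsol n)
      (hW p ⟨hp, hp1⟩ R.ℓ hℓ R.h R.smooth R.per R.pos (δ n) (hδ n) lam _ _ _ (hsol n) _ _ _
        (hsol n).h1)
    have h2 := (hCF (δ n) ⟨hδ n, hδ1 n⟩ (V n) (W n) (hsol n).h1.mV (hsol n).h1.mW).1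
    have h3 : 0 ≤ ∫ z, V n z ^ 2 ∂muT R.ℓ := integral_nonneg fun z => sq_nonneg _
    have h4 : lam * (H * (M + 1) / 2 * ∫ z, U n z ^ 2 ∂muT R.ℓ) ≤
        lam * (H * (M + 1) / 2 * K) :=
      mul_le_mul_of_nonneg_left (mul_le_mul_of_nonneg_left (hK n) (by positivity)) hlam.1.le
    have h5 : (∫ z, W n z ^ 2 ∂muT R.ℓ) / δ n ^ 2 ≤ C1 := by
      have := mul_le_mul_of_nonneg_left (h1.trans h4) hCF0.le
      linarith
    have h6 : 0 < δ n ^ 2 := pow_pos (hδ n) 2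
    rwa [div_le_iff₀ h6] at h5
  -- averages
  have hAv : ∀ n, H1T R.ℓ (avY (U n)) (avY (V n)) (fun _ => 0) := fun n =>
    (hA R.ℓ hℓ _ _ _ (hsol n).h1).1
  have hAv2 : ∀ n, ∫ z, (U n z - avY (U n) z) ^ 2 ∂muT R.ℓ ≤ 4 * (C1 * δ n ^ 2) := fun n =>
    (hA R.ℓ hℓ _ _ _ (hsol n).h1).2.trans (mul_le_mul_of_nonneg_left (hWn n) (by norm_num))
  have hsl : ∀ n : ℕ, ∃ φ, C1p R.ℓ φ ∧ ∫ z, (φ z.1 - avY (U n) z) ^ 2 ∂muT R.ℓ ≤ 1 / ((n:ℝ) + 1) ∧
      ∫ z, (deriv φ z.1 - avY (V n) z) ^ 2 ∂muT R.ℓ ≤ 1 / ((n:ℝ) + 1) := by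
    intro n
    exact slice hℓ hB (u := fun s => (∫ y in (-1:ℝ)..1, U n (s, y)) / 2)
      (v := fun s => (∫ y in (-1:ℝ)..1, V n (s, y)) / 2) (hAv n) (by positivity)
  choose φ hφ hφ2 hφ3 using hsl
  have hφL : ∀ n, MemLp (fun z : ℝ × ℝ => φ n z.1) 2 (muT R.ℓ) := fun n => by
    obtain ⟨K4, -, hK4⟩ := bdd_per hℓ (c1_cont (hφ n)) (hφ n).2
    exact memLp_fst (c1_cont (hφ n)) hK4
  have hd : ∀ n : ℕ, ∫ z, (U n z - φ n z.1) ^ 2 ∂muT R.ℓ ≤
      8 * (C1 * δ n ^ 2) + 2 * (1 / ((n:ℝ) + 1)) := by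
    intro n
    have h1 := int_sq_sub_le (hsol n).h1.mU (hAv n).mU (hφL n)
    have h2 : ∫ z, (avY (U n) z - φ n z.1) ^ 2 ∂muT R.ℓ =
        ∫ z, (φ n z.1 - avY (U n) z) ^ 2 ∂muT R.ℓ :=
      integral_congr_ae (Eventually.of_forall fun z => by ring)
    rw [h2] at h1
    have := hAv2 n
    have := hφ2 n
    linarith
  -- limits of scalars
  have t1 : Tendsto (fun n => δ n ^ 2) atTop (𝓝 0) := by simpa using hδ0.pow 2
  have t2 : Tendsto (fun n : ℕ => 1 / ((n:ℝ) + 1)) atTop (𝓝 0) :=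
    tendsto_one_div_add_atTop_nhds_zero_nat
  have t3 : Tendsto (fun n : ℕ => 8 * (C1 * δ n ^ 2) + 2 * (1 / ((n:ℝ) + 1))) atTop (𝓝 0) := by
    have := ((t1.const_mul C1).const_mul 8).add (t2.const_mul 2)
    simpa using this
  -- the approximate equation
  have heq : ∀ ε > 0, ∃ N, ∀ n ≥ N, ∀ ψ, C1p R.ℓ ψ →
      defect p lam R.ℓ R.h (φ n) ψ ^ 2 ≤ ε * H1n R.ℓ ψ := by
    intro ε hε
    obtain ⟨η, hη, hη'⟩ : ∃ η > 0, 2 * (lam ^ 2 * H ^ 2 * (8 * R.ℓ * η ^ 2)) ≤ ε / 2 := by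
      have hlam0 := hlam.1
      refine ⟨√(ε / (4 * (lam ^ 2 * H ^ 2 * (8 * R.ℓ)))), by positivity, ?_⟩
      rw [Real.sq_sqrt (by positivity)]
      refine le_of_eq ?_
      field_simp
      ring
    obtain ⟨C, hC0, hC⟩ := gg_lin hp hp1 hη
    have t4 : Tendsto (fun n : ℕ => 2 * (H ^ 2 * (1 / ((n:ℝ) + 1)) + H' ^ 2 * (C1 * δ n ^ 2) +
        lam ^ 2 * H ^ 2 * (4 * (M ^ 2 * δ n ^ 2) * (2 * R.ℓ + 4 * K) +
          4 * C ^ 2 * (8 * (C1 * δ n ^ 2) + 2 * (1 / ((n:ℝ) + 1)))))) atTop (𝓝 0) := by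
      have a1 := t2.const_mul (H ^ 2)
      have a2 := (t1.const_mul C1).const_mul (H' ^ 2)
      have a3 := (((t1.const_mul (M ^ 2)).const_mul 4).mul_const (2 * R.ℓ + 4 * K)).add
        (t3.const_mul (4 * C ^ 2))
      have := (((a1.add a2).add (a3.const_mul (lam ^ 2 * H ^ 2))).const_mul 2)
      simpa using this
    obtain ⟨N, hN⟩ := eventually_atTop.1 (t4.eventually (gt_mem_nhds (half_pos hε)))
    refine ⟨N, fun n hn ψ hψ => ?_⟩
    have hMn := hM (δ n) ⟨hδ n, hδ1 n⟩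
    obtain ⟨hN1, hN2⟩ := nonlin_le hp hp1 hℓ hh hMn (hsol n).h1.mU (hφL n) hC
    have h1 := defect_le hp hp1 hℓ hh R.pos hH hhd hH' (hsol n) (hAv n).mV (hφ n) hψ hN1
    refine h1.trans (mul_le_mul_of_nonneg_right ?_ (H1n_nonneg hℓ ψ))
    have h2 : ∫ z, (gg p (U n z) * om R.ℓ R.h (δ n) z - gg p (φ n z.1)) ^ 2 ∂muT R.ℓ ≤
        4 * (M ^ 2 * δ n ^ 2) * (2 * R.ℓ + 4 * K) + 8 * R.ℓ * η ^ 2 +
          4 * C ^ 2 * (8 * (C1 * δ n ^ 2) + 2 * (1 / ((n:ℝ) + 1))) := by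
      refine hN2.trans ?_
      have e1 : 4 * (M * δ n) ^ 2 * (2 * R.ℓ + 4 * ∫ z, U n z ^ 2 ∂muT R.ℓ) ≤
          4 * (M ^ 2 * δ n ^ 2) * (2 * R.ℓ + 4 * K) := by
        rw [mul_pow]
        exact mul_le_mul_of_nonneg_left (by linarith [hK n]) (by positivity)
      have e2 := mul_le_mul_of_nonneg_left (hd n) (by positivity : 0 ≤ 4 * C ^ 2)
      linarith
    have h3 := mul_le_mul_of_nonneg_left (hφ3 n) (sq_nonneg H)
    have h4 := mul_le_mul_of_nonneg_left (hWn n) (sq_nonneg H')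
    have h5 := mul_le_mul_of_nonneg_left h2 (by positivity : 0 ≤ lam ^ 2 * H ^ 2)
    have h6 := hN n hn
    nlinarith
  -- coercivity
  obtain ⟨c, hc, C, hC⟩ := R.coer
  obtain ⟨Kw, hKw⟩ := R.wab
  have hwa : ∀ s, |R.wa s| ≤ Kw := fun s => by
    rw [abs_of_nonneg (R.wa0 s)]; exact (hKw s).1
  have hwb : ∀ s, |R.wb s| ≤ Kw := fun s => by
    rw [abs_of_nonneg (R.wb0 s)]; exact (hKw s).2
  let a : ℕ → ℝ := fun n => ∫ s in (0:ℝ)..R.ℓ, R.wa s * φ n s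
  let b : ℕ → ℝ := fun n => ∫ s in (0:ℝ)..R.ℓ, R.wb s * φ n s
  have hcoer : ∀ n m, ∀ ε > 0, defect p lam R.ℓ R.h (φ n) (fun s => φ n s - φ m s) ^ 2 ≤
      ε * H1n R.ℓ (fun s => φ n s - φ m s) →
      defect p lam R.ℓ R.h (φ m) (fun s => φ n s - φ m s) ^ 2 ≤
      ε * H1n R.ℓ (fun s => φ n s - φ m s) →
      c / 2 * H1n R.ℓ (fun s => φ n s - φ m s) ≤
        2 * ε / c + |C| * ((a n - a m) ^ 2 + (b n - b m) ^ 2) := by
    intro n m ε hε h1 h2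
    have h3 := hC _ (c1_sub (hφ n) (hφ m))
    rw [avg_sub R.wam hwa (c1_cont (hφ n)) (c1_cont (hφ m)),
      avg_sub R.wbm hwb (c1_cont (hφ n)) (c1_cont (hφ m))] at h3
    have h4 := defect_sub_ge hp hp1 hlam.1.le hℓ hh R.pos (hφ n) (hφ m)
    have h5 : 0 ≤ Sm R.h (fun s => φ n s - φ m s) 0 R.ℓ :=
      intervalIntegral.integral_nonneg hℓ.le fun s _ => mul_nonneg (R.pos s).le (sq_nonneg _)
    have h6 : lam * Sm R.h (fun s => φ n s - φ m s) 0 R.ℓ ≤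
        l3 * Sm R.h (fun s => φ n s - φ m s) 0 R.ℓ := mul_le_mul_of_nonneg_right hlam.2.le h5
    have hH1 := H1n_nonneg hℓ (fun s => φ n s - φ m s)
    have hab : ∀ d : ℝ, d ^ 2 ≤ ε * H1n R.ℓ (fun s => φ n s - φ m s) →
        |d| ≤ c / 4 * H1n R.ℓ (fun s => φ n s - φ m s) + ε / c := by
      intro d hd
      refine abs_le_of_sq_le_sq ?_ (by positivity)
      have h7 : (c / 4 * H1n R.ℓ (fun s => φ n s - φ m s)) * (ε / c) =
          ε * H1n R.ℓ (fun s => φ n s - φ m s) / 4 := by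
        field_simp
      nlinarith [sq_nonneg (c / 4 * H1n R.ℓ (fun s => φ n s - φ m s) - ε / c)]
    have h8 := (le_abs_self _).trans (hab _ h1)
    have h9 := (neg_le_abs _).trans (hab _ h2)
    have h10 : C * ((a n - a m) ^ 2 + (b n - b m) ^ 2) ≤
        |C| * ((a n - a m) ^ 2 + (b n - b m) ^ 2) :=
      mul_le_mul_of_nonneg_right (le_abs_self C) (by positivity)
    have h11 : c * ((∫ s in (0:ℝ)..R.ℓ, (deriv (fun s => φ n s - φ m s) s) ^ 2) +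
        ∫ s in (0:ℝ)..R.ℓ, (φ n s - φ m s) ^ 2) = c * H1n R.ℓ (fun s => φ n s - φ m s) := by
      rw [H1n, add_comm]
    rw [h11] at h3
    have h12 : 2 * ε / c = ε / c + ε / c := by ring
    rw [h12]
    change c * H1n R.ℓ (fun s => φ n s - φ m s) ≤ _ - _ + C * ((a n - a m) ^ 2 +
      (b n - b m) ^ 2) at h3
    linarith
  -- boundedness of the averages
  have hφb : ∀ n, ∫ s in (0:ℝ)..R.ℓ, φ n s ^ 2 ≤ 8 * C1 + 2 + K := by
    intro n
    have h1 : ∫ z, (φ n z.1 - 0) ^ 2 ∂muT R.ℓ ≤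
        2 * (∫ z, (φ n z.1 - U n z) ^ 2 ∂muT R.ℓ) + 2 * ∫ z, (U n z - 0) ^ 2 ∂muT R.ℓ :=
      int_sq_sub_le (hφL n) (hsol n).h1.mU
        (MemLp.zero : MemLp (fun _ : ℝ × ℝ => (0:ℝ)) 2 (muT R.ℓ))
    simp only [sub_zero] at h1
    have h2 : ∫ z, φ n z.1 ^ 2 ∂muT R.ℓ = 2 * ∫ s in (0:ℝ)..R.ℓ, φ n s ^ 2 :=
      int_fst hℓ (fun s => φ n s ^ 2)
    have h3 : ∫ z, (φ n z.1 - U n z) ^ 2 ∂muT R.ℓ = ∫ z, (U n z - φ n z.1) ^ 2 ∂muT R.ℓ :=
      integral_congr_ae (Eventually.of_forall fun z => by ring)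
    rw [h2, h3] at h1
    have h4 := hd n
    have h5 := hK n
    have h6 : δ n ^ 2 ≤ 1 := pow_le_one₀ (hδ n).le (hδ1 n)
    have h7 : 1 / ((n:ℝ) + 1) ≤ 1 := by
      rw [div_le_one (by positivity)]
      have : (0:ℝ) ≤ n := Nat.cast_nonneg n
      linarith
    have h8 : C1 * δ n ^ 2 ≤ C1 := mul_le_of_le_one_right hC10 h6
    linarith
  set R0 : ℝ := ((∫ s in (0:ℝ)..R.ℓ, R.wa s ^ 2) + ∫ s in (0:ℝ)..R.ℓ, R.wb s ^ 2) *
    (8 * C1 + 2 + K) + 1 with hR0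
  have hwa2 : 0 ≤ ∫ s in (0:ℝ)..R.ℓ, R.wa s ^ 2 :=
    intervalIntegral.integral_nonneg hℓ.le fun s _ => sq_nonneg _
  have hwb2 : 0 ≤ ∫ s in (0:ℝ)..R.ℓ, R.wb s ^ 2 :=
    intervalIntegral.integral_nonneg hℓ.le fun s _ => sq_nonneg _
  have hR01 : 1 ≤ R0 := by
    have : 0 ≤ ((∫ s in (0:ℝ)..R.ℓ, R.wa s ^ 2) + ∫ s in (0:ℝ)..R.ℓ, R.wb s ^ 2) *
      (8 * C1 + 2 + K) := by positivity
    linarith
  have habs : ∀ x : ℝ, x ^ 2 ≤ R0 → |x| ≤ R0 := fun x hx =>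
    abs_le_of_sq_le_sq (hx.trans (by nlinarith)) (by linarith)
  have ha0 : ∀ n, |a n| ≤ R0 := fun n => by
    refine habs _ ((avg_sq_le hℓ R.wam hwa (hφ n)).trans ?_)
    have h1 := mul_le_mul_of_nonneg_left (hφb n) hwa2
    have h2 : 0 ≤ (∫ s in (0:ℝ)..R.ℓ, R.wb s ^ 2) * (8 * C1 + 2 + K) := by positivity
    rw [hR0]
    linarith
  have hb0 : ∀ n, |b n| ≤ R0 := fun n => by
    refine habs _ ((avg_sq_le hℓ R.wbm hwb (hφ n)).trans ?_)
    have h1 := mul_le_mul_of_nonneg_left (hφb n) hwb2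
    have h2 : 0 ≤ (∫ s in (0:ℝ)..R.ℓ, R.wa s ^ 2) * (8 * C1 + 2 + K) := by positivity
    rw [hR0]
    linarith
  obtain ⟨xy, -, ns, hns, hconv⟩ := tendsto_subseq_of_bounded
    (Metric.isBounded_closedBall (x := (0 : ℝ × ℝ)) (r := R0)) (x := fun n => (a n, b n))
    (fun n => by
      rw [mem_closedBall_zero_iff, Prod.norm_def]
      exact max_le (ha0 n) (hb0 n))
  have hns1 : ∀ k, k ≤ ns k := fun k => hns.le_apply
  have hcs := hconv.cauchySeq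
  -- Cauchy
  have hcau : ∀ ε > 0, ∃ N, ∀ n ≥ N, ∀ m ≥ N,
      H1n R.ℓ (fun s => φ (ns n) s - φ (ns m) s) ≤ ε := by
    intro ε hε
    obtain ⟨N1, hN1⟩ := heq (c ^ 2 * ε / 8) (by positivity)
    obtain ⟨N2, hN2⟩ := Metric.cauchySeq_iff.1 hcs (√(c * ε / (8 * (|C| + 1)))) (by positivity)
    refine ⟨max N1 N2, fun n hn m hm => ?_⟩
    have hn1 : N1 ≤ ns n := ((le_max_left _ _).trans hn).trans (hns1 n)
    have hm1 : N1 ≤ ns m := ((le_max_left _ _).trans hm).trans (hns1 m)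
    have hψ := c1_sub (hφ (ns n)) (hφ (ns m))
    have h1 := hcoer (ns n) (ns m) (c ^ 2 * ε / 8) (by positivity) (hN1 _ hn1 _ hψ)
      (hN1 _ hm1 _ hψ)
    have h2 := hN2 n ((le_max_right _ _).trans hn) m ((le_max_right _ _).trans hm)
    rw [Prod.dist_eq, Real.dist_eq, Real.dist_eq] at h2
    have h3 : |a (ns n) - a (ns m)| < √(c * ε / (8 * (|C| + 1))) := (le_max_left _ _).trans_lt h2
    have h4 : |b (ns n) - b (ns m)| < √(c * ε / (8 * (|C| + 1))) := (le_max_right _ _).trans_lt h2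
    have hsq : ∀ x : ℝ, |x| < √(c * ε / (8 * (|C| + 1))) → x ^ 2 ≤ c * ε / (8 * (|C| + 1)) := by
      intro x hx
      rw [← sq_abs, ← Real.sq_sqrt (by positivity : 0 ≤ c * ε / (8 * (|C| + 1)))]
      exact pow_le_pow_left₀ (abs_nonneg _) hx.le 2
    have h5 := hsq _ h3
    have h6 := hsq _ h4
    have h7 : |C| * ((a (ns n) - a (ns m)) ^ 2 + (b (ns n) - b (ns m)) ^ 2) ≤ c * ε / 4 := by
      have e1 : |C| * ((a (ns n) - a (ns m)) ^ 2 + (b (ns n) - b (ns m)) ^ 2) ≤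
          (|C| + 1) * (c * ε / (8 * (|C| + 1)) + c * ε / (8 * (|C| + 1))) :=
        mul_le_mul (by linarith) (add_le_add h5 h6) (by positivity) (by positivity)
      refine e1.trans (le_of_eq ?_)
      have : |C| + 1 ≠ 0 := by positivity
      field_simp
      ring
    have h8 : 2 * (c ^ 2 * ε / 8) / c = c * ε / 4 := by
      field_simp
      ring
    rw [h8] at h1
    have h9 : c / 2 * H1n R.ℓ (fun s => φ (ns n) s - φ (ns m) s) ≤ c / 2 * ε := by linarith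
    exact le_of_mul_le_mul_left h9 (by positivity)
  obtain ⟨v, F, hv, hconv2⟩ := limit1D hp hp1 hℓ hh R.per R.pos (fun k => φ (ns k))
    (fun k => hφ (ns k)) hcau (fun ε hε => by
      obtain ⟨N, hN⟩ := heq ε hε
      exact ⟨N, fun n hn ψ hψ => hN (ns n) (hn.trans (hns1 n)) ψ hψ⟩)
  refine ⟨ns, hns, v, F, hv, ?_⟩
  -- convergence
  have hvc : Continuous v := continuous_iff_continuousAt.2 fun s => (hv.du s).continuousAt
  obtain ⟨Kv, -, hKv⟩ := bdd_per hℓ hvc hv.per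
  have hvL := memLp_fst (ℓ := R.ℓ) hvc hKv
  refine Metric.tendsto_atTop.2 fun ε hε => ?_
  obtain ⟨N1, hN1⟩ := eventually_atTop.1 (t3.eventually (gt_mem_nhds
    (by positivity : (0:ℝ) < ε / 8)))
  obtain ⟨N2, hN2⟩ := hconv2 (√(ε / (16 * R.ℓ))) (by positivity)
  refine ⟨max N1 N2, fun k hk => ?_⟩
  have h0 : 0 ≤ ∫ z, (U (ns k) z - v z.1) ^ 2 ∂muT R.ℓ := integral_nonneg fun z => sq_nonneg _
  rw [Real.dist_eq, sub_zero, abs_of_nonneg h0]
  have h1 := int_sq_sub_le (hsol (ns k)).h1.mU (hφL (ns k)) hvL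
  have h2 := hd (ns k)
  have h3 := hN1 (ns k) (((le_max_left _ _).trans hk).trans (hns1 k))
  have h4 : ∫ z, (φ (ns k) z.1 - v z.1) ^ 2 ∂muT R.ℓ ≤ ε / 8 := by
    have e1 : ∫ z, (φ (ns k) z.1 - v z.1) ^ 2 ∂muT R.ℓ ≤
        ∫ _, ε / (16 * R.ℓ) ∂muT R.ℓ := by
      refine integral_mono ((hφL (ns k)).sub hvL).integrable_sq (integrable_const _) fun z => ?_
      change (φ (ns k) z.1 - v z.1) ^ 2 ≤ ε / (16 * R.ℓ)
      rw [← sq_abs, ← Real.sq_sqrt (by positivity : 0 ≤ ε / (16 * R.ℓ))]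
      exact pow_le_pow_left₀ (abs_nonneg _) (hN2 k ((le_max_right _ _).trans hk) z.1) 2
    rw [int_const hℓ] at e1
    refine e1.trans (le_of_eq ?_)
    field_simp
    ring
  linarith

/-- Module B4. -/
theorem limitStatement (hB : H1TBasic) (hA : H1TAverage) (hW : WeakExtend) (hF : FormCompare) :
    LimitStatement := by
  intro p l0 l1 l3 R lam hlam δ hδ hδ0 U V W hsol hK
  obtain ⟨K, hK⟩ := hK
  obtain ⟨N, hN⟩ := eventually_atTop.1 (hδ0.eventually (gt_mem_nhds one_pos))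
  obtain ⟨ns, hns, v, F, hv, hlim⟩ := limit_aux hB hA hW hF p l0 l1 l3 R lam hlam
    (fun n => δ (n + N)) (fun n => hδ _) (fun n => (hN _ (Nat.le_add_left _ _)).le)
    ((tendsto_add_atTop_iff_nat N).2 hδ0) (fun n => U (n + N)) (fun n => V (n + N))
    (fun n => W (n + N)) (fun n => hsol _) K (fun n => hK _)
  exact ⟨fun k => ns k + N, fun i j hij => Nat.add_lt_add_right (hns hij) N, v, F, hv, hlim⟩

end Pool.Agent.Lib.MP_e46711_an.H99
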