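import Pool.Agent.Lib.MP_e46711_an.DefsB
import Pool.Agent.Lib.MP_e46711_an.H82.Basic

/-!
# Module B4, first part: the one-dimensional limit argument
-/

open Set Filter Topology MeasureTheory
open scoped ContDiff

namespace Pool.Agent.Lib.MP_e46711_an.H99

open Pool.Agent.Lib.MP_e46711_an

/-! ### Cauchy-Schwarz -/

lemma quad_le {A B C : ℝ} (h : ∀ x : ℝ, 0 ≤ C * (x * x) + 2 * B * x + A) : B ^ 2 ≤ A * C := by
  have := discrim_le_zero h
  rw [discrim] at this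
  nlinarith

lemma cs_int {f g : ℝ → ℝ} (hf : Continuous f) (hg : Continuous g) {a b : ℝ} (hab : a ≤ b) :
    (∫ s in a..b, f s * g s) ^ 2 ≤ (∫ s in a..b, f s ^ 2) * ∫ s in a..b, g s ^ 2 := by
  refine quad_le fun x => ?_
  have h1 : 0 ≤ ∫ s in a..b, (f s + x * g s) ^ 2 :=
    intervalIntegral.integral_nonneg hab fun s _ => sq_nonneg _
  have i1 : IntervalIntegrable (fun s => f s ^ 2) volume a b := (hf.pow 2).intervalIntegrable _ _
  have i2 : IntervalIntegrable (fun s => 2 * x * (f s * g s)) volume a b :=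
    (continuous_const.mul (hf.mul hg)).intervalIntegrable _ _
  have i3 : IntervalIntegrable (fun s => x * x * g s ^ 2) volume a b :=
    (continuous_const.mul (hg.pow 2)).intervalIntegrable _ _
  have h2 : ∫ s in a..b, (f s + x * g s) ^ 2 =
      (∫ s in a..b, f s ^ 2) + 2 * x * (∫ s in a..b, f s * g s) +
        x * x * ∫ s in a..b, g s ^ 2 := by
    rw [← intervalIntegral.integral_const_mul, ← intervalIntegral.integral_const_mul,
      ← intervalIntegral.integral_add i1 i2, ← intervalIntegral.integral_add (i1.add i2) i3]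
    exact intervalIntegral.integral_congr fun s _ => by ring
  rw [h2] at h1
  linarith

/-- `(∫ f)^2 ≤ (b - a) ∫ f^2` -/
lemma cs_one {f : ℝ → ℝ} (hf : Continuous f) {a b : ℝ} (hab : a ≤ b) :
    (∫ s in a..b, f s) ^ 2 ≤ (b - a) * ∫ s in a..b, f s ^ 2 := by
  have h := cs_int hf (continuous_const (y := (1:ℝ))) hab
  simp only [mul_one, one_pow, intervalIntegral.integral_const, smul_eq_mul] at h
  linarith [mul_comm (∫ s in a..b, f s ^ 2) (b - a)]

/-! ### Periodic functions -/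

lemma exists_mem_Ico {ℓ : ℝ} (hℓ : 0 < ℓ) {f : ℝ → ℝ} (hf : ∀ s, f (s + ℓ) = f s) (s : ℝ) :
    ∃ t ∈ Ico 0 ℓ, f s = f t :=
  Function.Periodic.exists_mem_Ico₀ (f := f) hf hℓ s

lemma bdd_per {ℓ : ℝ} (hℓ : 0 < ℓ) {f : ℝ → ℝ} (hc : Continuous f) (hf : ∀ s, f (s + ℓ) = f s) :
    ∃ K > 0, ∀ s, |f s| ≤ K := by
  obtain ⟨K, hK⟩ := (isCompact_Icc (a := (0:ℝ)) (b := ℓ)).exists_bound_of_continuousOn
    hc.continuousOn
  refine ⟨max K 1, by positivity, fun s => ?_⟩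
  obtain ⟨t, ht, e⟩ := exists_mem_Ico hℓ hf s
  rw [e]
  exact (hK t ⟨ht.1, ht.2.le⟩).trans (le_max_left _ _)

lemma c1_cont {ℓ : ℝ} {u : ℝ → ℝ} (h : C1p ℓ u) : Continuous u := h.1.continuous

lemma c1_contDeriv {ℓ : ℝ} {u : ℝ → ℝ} (h : C1p ℓ u) : Continuous (deriv u) :=
  h.1.continuous_deriv le_rfl

lemma c1_hasDeriv {ℓ : ℝ} {u : ℝ → ℝ} (h : C1p ℓ u) (s : ℝ) : HasDerivAt u (deriv u s) s :=
  ((h.1.differentiable one_ne_zero) s).hasDerivAt

lemma c1_perDeriv {ℓ : ℝ} {u : ℝ → ℝ} (h : C1p ℓ u) (s : ℝ) : deriv u (s + ℓ) = deriv u s := by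
  have h1 : deriv (fun t => u (t + ℓ)) s = deriv u (s + ℓ) := deriv_comp_add_const u ℓ s
  rw [← h1]
  congr 1
  funext t
  exact h.2 t

lemma c1_sub {ℓ : ℝ} {u v : ℝ → ℝ} (h : C1p ℓ u) (h' : C1p ℓ v) :
    C1p ℓ (fun s => u s - v s) :=
  ⟨h.1.sub h'.1, fun s => by show u (s + ℓ) - v (s + ℓ) = _; rw [h.2, h'.2]⟩

lemma c1_deriv_sub {ℓ : ℝ} {u v : ℝ → ℝ} (h : C1p ℓ u) (h' : C1p ℓ v) (s : ℝ) :
    deriv (fun s => u s - v s) s = deriv u s - deriv v s :=
  ((c1_hasDeriv h s).sub (c1_hasDeriv h' s)).deriv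

/-- primitive of a continuous periodic function with integral zero -/
lemma prim_C1p {ℓ : ℝ} {η : ℝ → ℝ} (hc : Continuous η) (hp : ∀ s, η (s + ℓ) = η s)
    (h0 : ∫ s in (0:ℝ)..ℓ, η s = 0) :
    C1p ℓ (fun s => ∫ r in (0:ℝ)..s, η r) ∧
      ∀ s, deriv (fun s => ∫ r in (0:ℝ)..s, η r) s = η s := by
  have hd : ∀ s, HasDerivAt (fun s => ∫ r in (0:ℝ)..s, η r) (η s) s := fun s =>
    intervalIntegral.integral_hasDerivAt_right (hc.intervalIntegrable _ _)
      (hc.stronglyMeasurableAtFilter _ _) hc.continuousAt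
  have hd' : ∀ s, deriv (fun s => ∫ r in (0:ℝ)..s, η r) s = η s := fun s => (hd s).deriv
  refine ⟨⟨?_, fun s => ?_⟩, hd'⟩
  · rw [contDiff_one_iff_deriv]
    refine ⟨fun s => (hd s).differentiableAt, ?_⟩
    rw [show deriv (fun s => ∫ r in (0:ℝ)..s, η r) = η from funext hd']
    exact hc
  · change ∫ r in (0:ℝ)..(s + ℓ), η r = ∫ r in (0:ℝ)..s, η r
    rw [← intervalIntegral.integral_add_adjacent_intervals (hc.intervalIntegrable 0 s)
      (hc.intervalIntegrable s (s + ℓ))]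
    have : ∫ r in s..(s + ℓ), η r = ∫ r in (0:ℝ)..(0 + ℓ), η r :=
      Function.Periodic.intervalIntegral_add_eq (f := η) hp s 0
    rw [this, zero_add, h0, add_zero]

/-- Sobolev inequality -/
lemma sobolev {ℓ : ℝ} (hℓ : 0 < ℓ) {u : ℝ → ℝ} (hu : C1p ℓ u) (s : ℝ) :
    u s ^ 2 ≤ (2 / ℓ + 2 * ℓ) * ((∫ t in (0:ℝ)..ℓ, u t ^ 2) + ∫ t in (0:ℝ)..ℓ, deriv u t ^ 2) := by
  obtain ⟨s', hs', e⟩ := exists_mem_Ico hℓ hu.2 s
  rw [e]
  have hI : 0 ≤ ∫ t in (0:ℝ)..ℓ, deriv u t ^ 2 :=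
    intervalIntegral.integral_nonneg hℓ.le fun s _ => sq_nonneg _
  have hJ : 0 ≤ ∫ t in (0:ℝ)..ℓ, u t ^ 2 :=
    intervalIntegral.integral_nonneg hℓ.le fun s _ => sq_nonneg _
  have hdiff : ∀ a b, 0 ≤ a → a ≤ b → b ≤ ℓ →
      (u b - u a) ^ 2 ≤ ℓ * ∫ t in (0:ℝ)..ℓ, deriv u t ^ 2 := by
    intro a b ha hab hb
    have h1 : ∫ t in a..b, deriv u t = u b - u a :=
      intervalIntegral.integral_eq_sub_of_hasDerivAt (fun x _ => c1_hasDeriv hu x)
        ((c1_contDeriv hu).intervalIntegrable _ _)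
    rw [← h1]
    refine (cs_one (c1_contDeriv hu) hab).trans ?_
    have h2 : ∫ t in a..b, deriv u t ^ 2 ≤ ∫ t in (0:ℝ)..ℓ, deriv u t ^ 2 :=
      intervalIntegral.integral_mono_interval ha hab hb
        (Eventually.of_forall fun x => sq_nonneg _)
        (((c1_contDeriv hu).pow 2).intervalIntegrable _ _)
    have h3 : 0 ≤ ∫ t in a..b, deriv u t ^ 2 :=
      intervalIntegral.integral_nonneg hab fun s _ => sq_nonneg _
    have h4 : b - a ≤ ℓ := by linarith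
    nlinarith
  have key : ∀ t ∈ Icc 0 ℓ, u s' ^ 2 ≤ 2 * u t ^ 2 + 2 * (ℓ * ∫ t in (0:ℝ)..ℓ, deriv u t ^ 2) := by
    intro t ht
    have h5 : (u s' - u t) ^ 2 ≤ ℓ * ∫ t in (0:ℝ)..ℓ, deriv u t ^ 2 := by
      rcases le_total t s' with h | h
      · exact hdiff t s' ht.1 h hs'.2.le
      · have := hdiff s' t hs'.1 h ht.2
        nlinarith
    nlinarith [sq_nonneg (u s' - 2 * u t)]
  have h6 : ∫ _ in (0:ℝ)..ℓ, u s' ^ 2 ≤
      ∫ t in (0:ℝ)..ℓ, (2 * u t ^ 2 + 2 * (ℓ * ∫ t in (0:ℝ)..ℓ, deriv u t ^ 2)) :=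
    intervalIntegral.integral_mono_on hℓ.le (by simp)
      (((continuous_const.mul ((c1_cont hu).pow 2)).add continuous_const).intervalIntegrable _ _) key
  have i1 : IntervalIntegrable (fun t => 2 * u t ^ 2) volume 0 ℓ :=
    (continuous_const.mul ((c1_cont hu).pow 2)).intervalIntegrable _ _
  rw [intervalIntegral.integral_add i1 (by simp), intervalIntegral.integral_const, intervalIntegral.integral_const,
    intervalIntegral.integral_const_mul, smul_eq_mul, smul_eq_mul, sub_zero] at h6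
  have h7 : u s' ^ 2 ≤ 2 / ℓ * (∫ t in (0:ℝ)..ℓ, u t ^ 2) +
      2 * ℓ * ∫ t in (0:ℝ)..ℓ, deriv u t ^ 2 := by
    have h8 : ℓ * (2 / ℓ * (∫ t in (0:ℝ)..ℓ, u t ^ 2) + 2 * ℓ * ∫ t in (0:ℝ)..ℓ, deriv u t ^ 2) =
        2 * (∫ t in (0:ℝ)..ℓ, u t ^ 2) + ℓ * (2 * (ℓ * ∫ t in (0:ℝ)..ℓ, deriv u t ^ 2)) := by
      field_simp
    refine le_of_mul_le_mul_left ?_ hℓ
    rw [h8]
    exact h6
  have h9 : 0 < 2 / ℓ := by positivity
  have h10 : 0 ≤ 2 / ℓ * ∫ t in (0:ℝ)..ℓ, deriv u t ^ 2 := by positivity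
  have h11 : 0 ≤ 2 * ℓ * ∫ t in (0:ℝ)..ℓ, u t ^ 2 := by positivity
  nlinarith

/-- `gg p` is uniformly continuous. -/
lemma uc_gg {p : ℝ} (hp : 0 < p) (hp1 : p < 1) : UniformContinuous (gg p) := by
  have hc : Continuous fun t : ℝ => |t| + 2 * |t| ^ p :=
    continuous_abs.add (continuous_const.mul (continuous_abs.rpow_const fun _ => Or.inr hp.le))
  have h0 : Tendsto (fun t : ℝ => |t| + 2 * |t| ^ p) (𝓝 0) (𝓝 0) := by
    have := hc.tendsto 0
    simpa [Real.zero_rpow hp.ne'] using this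
  rw [Metric.uniformContinuous_iff]
  intro ε hε
  obtain ⟨d, hd, h⟩ := Metric.tendsto_nhds_nhds.1 h0 ε hε
  refine ⟨d, hd, fun {a b} hab => ?_⟩
  rw [Real.dist_eq] at hab ⊢
  have h1 := h (x := a - b) (by rwa [Real.dist_eq, sub_zero])
  rw [Real.dist_eq, sub_zero] at h1
  exact (abs_gg_sub_le hp hp1 a b).trans_lt ((le_abs_self _).trans_lt h1)

/-- `|g x - g y| ≤ η + C |x - y|` -/
lemma gg_lin {p : ℝ} (hp : 0 < p) (hp1 : p < 1) {η : ℝ} (hη : 0 < η) :
    ∃ C > 0, ∀ x y, |gg p x - gg p y| ≤ η + C * |x - y| := by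
  obtain ⟨d, hd, h⟩ := Metric.uniformContinuous_iff.1 (uc_gg hp hp1) η hη
  refine ⟨1 + 2 * (1 / d + 1), by positivity, fun x y => ?_⟩
  rcases lt_or_ge (|x - y|) d with h1 | h1
  · have h2 := h (a := x) (b := y) (by rwa [Real.dist_eq])
    rw [Real.dist_eq] at h2
    have : 0 ≤ (1 + 2 * (1 / d + 1)) * |x - y| := by positivity
    linarith
  · have h3 : |x - y| ^ p ≤ 1 + |x - y| := by
      rcases le_total (|x - y|) 1 with h | h
      · have := Real.rpow_le_one (abs_nonneg (x - y)) h hp.le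
        linarith [abs_nonneg (x - y)]
      · have := Real.rpow_le_rpow_of_exponent_le h hp1.le
        rw [Real.rpow_one] at this
        linarith
    have h4 : 1 ≤ 1 / d * |x - y| := by
      rw [div_mul_eq_mul_div, one_mul, le_div_iff₀ hd]
      linarith
    have h5 := abs_gg_sub_le hp hp1 x y
    nlinarith [abs_nonneg (x - y)]

/-! ### The limit -/

/-- `∫ u^2 + ∫ u'^2` -/
noncomputable def H1n (ℓ : ℝ) (u : ℝ → ℝ) : ℝ :=
  (∫ t in (0:ℝ)..ℓ, u t ^ 2) + ∫ t in (0:ℝ)..ℓ, deriv u t ^ 2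

lemma H1n_nonneg {ℓ : ℝ} (hℓ : 0 < ℓ) (u : ℝ → ℝ) : 0 ≤ H1n ℓ u :=
  add_nonneg (intervalIntegral.integral_nonneg hℓ.le fun _ _ => sq_nonneg _)
    (intervalIntegral.integral_nonneg hℓ.le fun _ _ => sq_nonneg _)

/-- the defect in the equation -/
noncomputable def defect (p lam ℓ : ℝ) (h u ψ : ℝ → ℝ) : ℝ :=
  (∫ s in (0:ℝ)..ℓ, h s * deriv u s * deriv ψ s) - lam * ∫ s in (0:ℝ)..ℓ, h s * gg p (u s) * ψ s

/-- the primitive of a mean zero function is bounded by it in `H^1` -/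
lemma prim_H1n {ℓ : ℝ} (hℓ : 0 < ℓ) {η : ℝ → ℝ} (hc : Continuous η)
    (hp : ∀ s, η (s + ℓ) = η s) (h0 : ∫ s in (0:ℝ)..ℓ, η s = 0) :
    H1n ℓ (fun s => ∫ r in (0:ℝ)..s, η r) ≤ (1 + ℓ ^ 2) * ∫ s in (0:ℝ)..ℓ, η s ^ 2 := by
  obtain ⟨h1, h2⟩ := prim_C1p hc hp h0
  have hI : 0 ≤ ∫ s in (0:ℝ)..ℓ, η s ^ 2 :=
    intervalIntegral.integral_nonneg hℓ.le fun s _ => sq_nonneg _
  have h3 : ∀ s ∈ Icc 0 ℓ, (∫ r in (0:ℝ)..s, η r) ^ 2 ≤ ℓ * ∫ s in (0:ℝ)..ℓ, η s ^ 2 := by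
    intro s hs
    refine (cs_one hc hs.1).trans ?_
    have h2 : ∫ t in (0:ℝ)..s, η t ^ 2 ≤ ∫ t in (0:ℝ)..ℓ, η t ^ 2 :=
      intervalIntegral.integral_mono_interval le_rfl hs.1 hs.2
        (Eventually.of_forall fun x => sq_nonneg _) ((hc.pow 2).intervalIntegrable _ _)
    have h3 : 0 ≤ ∫ t in (0:ℝ)..s, η t ^ 2 :=
      intervalIntegral.integral_nonneg hs.1 fun s _ => sq_nonneg _
    have h4 : s - 0 ≤ ℓ := by linarith [hs.2]
    have := hs.1
    nlinarith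
  have h4 : ∫ s in (0:ℝ)..ℓ, (∫ r in (0:ℝ)..s, η r) ^ 2 ≤
      ∫ _ in (0:ℝ)..ℓ, ℓ * ∫ s in (0:ℝ)..ℓ, η s ^ 2 :=
    intervalIntegral.integral_mono_on hℓ.le (((c1_cont h1).pow 2).intervalIntegrable _ _)
      (by simp) h3
  rw [intervalIntegral.integral_const, smul_eq_mul, sub_zero] at h4
  unfold H1n
  simp only [h2]
  nlinarith

/-- A sequence of `C^1` periodic functions which is Cauchy in `H^1` and solves the equation
approximately converges uniformly to a solution. -/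
theorem limit1D {p lam ℓ : ℝ} (hp : 0 < p) (hp1 : p < 1) (hℓ : 0 < ℓ) {h : ℝ → ℝ}
    (hh : Continuous h) (hper : ∀ s, h (s + ℓ) = h s) (hpos : ∀ s, 0 < h s)
    (f : ℕ → ℝ → ℝ) (hf : ∀ n, C1p ℓ (f n))
    (hcau : ∀ ε > 0, ∃ N, ∀ n ≥ N, ∀ m ≥ N, H1n ℓ (fun s => f n s - f m s) ≤ ε)
    (heq : ∀ ε > 0, ∃ N, ∀ n ≥ N, ∀ ψ, C1p ℓ ψ → defect p lam ℓ h (f n) ψ ^ 2 ≤ ε * H1n ℓ ψ) :
    ∃ v F, Sol p lam ℓ h v F ∧ ∀ ε > 0, ∃ N, ∀ n ≥ N, ∀ s, |f n s - v s| ≤ ε := by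
  -- uniform convergence
  have hC0 : 0 < 2 / ℓ + 2 * ℓ := by positivity
  have hU : ∀ ε > 0, ∃ N, ∀ n ≥ N, ∀ m ≥ N, ∀ s, |f n s - f m s| ≤ ε := by
    intro ε hε
    obtain ⟨N, hN⟩ := hcau (ε ^ 2 / (2 / ℓ + 2 * ℓ)) (by positivity)
    refine ⟨N, fun n hn m hm s => ?_⟩
    have h1 := sobolev hℓ (c1_sub (hf n) (hf m)) s
    have h2 : (2 / ℓ + 2 * ℓ) * H1n ℓ (fun s => f n s - f m s) ≤ ε ^ 2 := by
      have := mul_le_mul_of_nonneg_left (hN n hn m hm) hC0.le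
      rwa [mul_div_cancel₀ _ hC0.ne'] at this
    exact abs_le_of_sq_le_sq (h1.trans h2) hε.le
  have hlim : ∀ s, ∃ l, Tendsto (fun n => f n s) atTop (𝓝 l) := by
    intro s
    refine cauchySeq_tendsto_of_complete (Metric.cauchySeq_iff'.2 fun ε hε => ?_)
    obtain ⟨N, hN⟩ := hU (ε / 2) (by positivity)
    refine ⟨N, fun n hn => ?_⟩
    rw [Real.dist_eq]
    exact (hN n hn N le_rfl s).trans_lt (by linarith)
  choose v hv using hlim
  have hUv : ∀ ε > 0, ∃ N, ∀ n ≥ N, ∀ s, |f n s - v s| ≤ ε := by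
    intro ε hε
    obtain ⟨N, hN⟩ := hU ε hε
    refine ⟨N, fun n hn s => ?_⟩
    have h1 : Tendsto (fun m => |f n s - f m s|) atTop (𝓝 |f n s - v s|) :=
      (tendsto_const_nhds.sub (hv s)).abs
    refine le_of_tendsto h1 ?_
    filter_upwards [eventually_ge_atTop N] with m hm
    exact hN n hn m hm s
  have hvper : ∀ s, v (s + ℓ) = v s := fun s =>
    tendsto_nhds_unique (hv (s + ℓ)) (by simpa only [(hf _).2] using hv s)
  have hvc : Continuous v := by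
    refine TendstoUniformly.continuous (F := f) (p := atTop) ?_
      (Frequently.of_forall fun n => c1_cont (hf n))
    rw [Metric.tendstoUniformly_iff]
    intro ε hε
    obtain ⟨N, hN⟩ := hUv (ε / 2) (by positivity)
    filter_upwards [eventually_ge_atTop N] with n hn s
    rw [Real.dist_eq, abs_sub_comm]
    exact (hN n hn s).trans_lt (by linarith)
  have hG : ∀ ε > 0, ∃ N, ∀ n ≥ N, ∀ s, |gg p (f n s) - gg p (v s)| ≤ ε := by
    intro ε hε
    obtain ⟨d, hd, h1⟩ := Metric.uniformContinuous_iff.1 (uc_gg hp hp1) ε hε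
    obtain ⟨N, hN⟩ := hUv (d / 2) (by positivity)
    refine ⟨N, fun n hn s => ?_⟩
    have h2 := h1 (a := f n s) (b := v s) (by
      rw [Real.dist_eq]
      exact (hN n hn s).trans_lt (by linarith))
    rw [Real.dist_eq] at h2
    exact h2.le
  -- bounds for `h`
  obtain ⟨H, hH0, hH⟩ := bdd_per hℓ hh hper
  have hhi : Continuous fun s => 1 / h s := continuous_const.div hh fun s => (hpos s).ne'
  obtain ⟨K, hK0, hK⟩ := bdd_per hℓ hhi (fun s => by rw [hper])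
  have hgc := continuous_gg hp hp1
  have hgv : Continuous fun s => gg p (v s) := hgc.comp hvc
  -- the equation with `v` on the right hand side
  have hY : ∀ ε > 0, ∃ N, ∀ n ≥ N, ∀ ψ, C1p ℓ ψ →
      ((∫ s in (0:ℝ)..ℓ, h s * deriv (f n) s * deriv ψ s) -
        lam * ∫ s in (0:ℝ)..ℓ, h s * gg p (v s) * ψ s) ^ 2 ≤ ε * H1n ℓ ψ := by
    intro ε hε
    obtain ⟨N1, hN1⟩ := heq (ε / 4) (by positivity)
    have hD : 0 < 4 * (lam ^ 2 * (ℓ * H ^ 2) + 1) := by positivity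
    obtain ⟨η, hη, hη'⟩ : ∃ η > 0, 2 * (lam ^ 2 * (ℓ * (H * η) ^ 2)) ≤ ε / 2 := by
      refine ⟨√(ε / (4 * (lam ^ 2 * (ℓ * H ^ 2) + 1))), by positivity, ?_⟩
      rw [mul_pow, Real.sq_sqrt (by positivity)]
      have h1 : 2 * (lam ^ 2 * (ℓ * (H ^ 2 * (ε / (4 * (lam ^ 2 * (ℓ * H ^ 2) + 1)))))) =
          ε / 2 * ((lam ^ 2 * (ℓ * H ^ 2)) / (lam ^ 2 * (ℓ * H ^ 2) + 1)) := by
        field_simp
        ring
      rw [h1]
      have h2 : (lam ^ 2 * (ℓ * H ^ 2)) / (lam ^ 2 * (ℓ * H ^ 2) + 1) ≤ 1 := by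
        rw [div_le_one (by positivity)]
        linarith
      nlinarith
    obtain ⟨N2, hN2⟩ := hG η hη
    refine ⟨max N1 N2, fun n hn ψ hψ => ?_⟩
    have h1 := hN1 n ((le_max_left _ _).trans hn) ψ hψ
    have hgf : Continuous fun s => gg p (f n s) := hgc.comp (c1_cont (hf n))
    have h2 : (∫ s in (0:ℝ)..ℓ, (h s * (gg p (f n s) - gg p (v s))) * ψ s) ^ 2 ≤
        (ℓ * (H * η) ^ 2) * H1n ℓ ψ := by
      refine (cs_int (hh.mul (hgf.sub hgv)) (c1_cont hψ) hℓ.le).trans ?_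
      have h3 : ∫ s in (0:ℝ)..ℓ, (h s * (gg p (f n s) - gg p (v s))) ^ 2 ≤
          ∫ _ in (0:ℝ)..ℓ, (H * η) ^ 2 := by
        refine intervalIntegral.integral_mono_on hℓ.le
          (((hh.mul (hgf.sub hgv)).pow 2).intervalIntegrable _ _) (by simp) fun s _ => ?_
        have h4 : |h s * (gg p (f n s) - gg p (v s))| ≤ H * η := by
          rw [abs_mul]
          exact mul_le_mul (hH s) (hN2 n ((le_max_right _ _).trans hn) s) (abs_nonneg _) hH0.le
        rw [← sq_abs]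
        exact pow_le_pow_left₀ (abs_nonneg _) h4 2
      rw [intervalIntegral.integral_const, smul_eq_mul, sub_zero] at h3
      have h5 : 0 ≤ ∫ s in (0:ℝ)..ℓ, ψ s ^ 2 :=
        intervalIntegral.integral_nonneg hℓ.le fun s _ => sq_nonneg _
      have h6 : ∫ s in (0:ℝ)..ℓ, ψ s ^ 2 ≤ H1n ℓ ψ :=
        le_add_of_nonneg_right (intervalIntegral.integral_nonneg hℓ.le fun s _ => sq_nonneg _)
      exact mul_le_mul h3 h6 h5 (by positivity)
    have h7 : (∫ s in (0:ℝ)..ℓ, (h s * (gg p (f n s) - gg p (v s))) * ψ s) =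
        (∫ s in (0:ℝ)..ℓ, h s * gg p (f n s) * ψ s) -
          ∫ s in (0:ℝ)..ℓ, h s * gg p (v s) * ψ s := by
      have i1 : IntervalIntegrable (fun s => h s * gg p (f n s) * ψ s) volume 0 ℓ :=
        ((hh.mul hgf).mul (c1_cont hψ)).intervalIntegrable _ _
      have i2 : IntervalIntegrable (fun s => h s * gg p (v s) * ψ s) volume 0 ℓ :=
        ((hh.mul hgv).mul (c1_cont hψ)).intervalIntegrable _ _
      rw [← intervalIntegral.integral_sub i1 i2]
      exact intervalIntegral.integral_congr fun s _ => by ring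
    rw [h7] at h2
    unfold defect at h1
    set X := ∫ s in (0:ℝ)..ℓ, h s * deriv (f n) s * deriv ψ s
    set Y := ∫ s in (0:ℝ)..ℓ, h s * gg p (f n s) * ψ s
    set Z := ∫ s in (0:ℝ)..ℓ, h s * gg p (v s) * ψ s
    have h8 : (X - lam * Z) ^ 2 ≤ 2 * (X - lam * Y) ^ 2 + 2 * (lam ^ 2 * (Y - Z) ^ 2) := by
      nlinarith [sq_nonneg ((X - lam * Y) - lam * (Y - Z))]
    have h9 : lam ^ 2 * (Y - Z) ^ 2 ≤ lam ^ 2 * ((ℓ * (H * η) ^ 2) * H1n ℓ ψ) :=
      mul_le_mul_of_nonneg_left h2 (sq_nonneg _)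
    have h10 := H1n_nonneg hℓ ψ
    have h11 := mul_le_mul_of_nonneg_right hη' h10
    nlinarith
  -- the flux
  let κ : ℝ → ℝ := fun s => -(lam * (h s * gg p (v s)))
  have hκc : Continuous κ := (continuous_const.mul (hh.mul hgv)).neg
  have hκp : ∀ s, κ (s + ℓ) = κ s := fun s => by
    change -(lam * (h (s + ℓ) * gg p (v (s + ℓ)))) = -(lam * (h s * gg p (v s)))
    rw [hper, hvper]
  have hκ0 : ∫ s in (0:ℝ)..ℓ, κ s = 0 := by
    have h1 : ∀ ε > 0, (∫ s in (0:ℝ)..ℓ, κ s) ^ 2 ≤ ε * ℓ := by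
      intro ε hε
      obtain ⟨N, hN⟩ := hY ε hε
      have h2 := hN N le_rfl (fun _ => 1) ⟨contDiff_const, fun _ => rfl⟩
      simp only [deriv_const', mul_zero, intervalIntegral.integral_zero, zero_sub, mul_one] at h2
      have h3 : H1n ℓ (fun _ => 1) = ℓ := by
        unfold H1n
        simp
      rw [h3, ← intervalIntegral.integral_const_mul, ← intervalIntegral.integral_neg] at h2
      exact h2
    have h2 : (∫ s in (0:ℝ)..ℓ, κ s) ^ 2 ≤ 0 := by
      refine le_of_forall_pos_le_add fun ε hε => ?_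
      have := h1 (ε / ℓ) (by positivity)
      rw [div_mul_cancel₀ _ hℓ.ne'] at this
      linarith
    nlinarith [sq_nonneg (∫ s in (0:ℝ)..ℓ, κ s)]
  obtain ⟨hΦ1, hΦ2⟩ := prim_C1p hκc hκp hκ0
  set Φ : ℝ → ℝ := fun s => ∫ r in (0:ℝ)..s, κ r with hΦdef
  have hΦc : Continuous Φ := c1_cont hΦ1
  have hΦ0 : Φ 0 = 0 := by simp [hΦdef]
  have hΦℓ : Φ ℓ = 0 := by
    have := hΦ1.2 0
    rw [zero_add] at this
    rw [this, hΦ0]
  have hparts : ∀ ψ, C1p ℓ ψ → ∫ s in (0:ℝ)..ℓ, Φ s * deriv ψ s =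
      lam * ∫ s in (0:ℝ)..ℓ, h s * gg p (v s) * ψ s := by
    intro ψ hψ
    have h1 := intervalIntegral.integral_mul_deriv_eq_deriv_mul (a := 0) (b := ℓ) (u := Φ)
      (v := ψ) (u' := κ) (v' := deriv ψ)
      (fun x _ => by have := c1_hasDeriv hΦ1 x; rwa [hΦ2] at this)
      (fun x _ => c1_hasDeriv hψ x)
      (hκc.intervalIntegrable _ _) ((c1_contDeriv hψ).intervalIntegrable _ _)
    rw [h1, hΦ0, hΦℓ, zero_mul, zero_mul, sub_zero, zero_sub,
      ← intervalIntegral.integral_neg, ← intervalIntegral.integral_const_mul]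
    exact intervalIntegral.integral_congr fun s _ => by
      change -(-(lam * (h s * gg p (v s))) * ψ s) = lam * (h s * gg p (v s) * ψ s)
      ring
  -- mean zero part
  let q : ℕ → ℝ → ℝ := fun n s => h s * deriv (f n) s - Φ s
  have hqc : ∀ n, Continuous (q n) := fun n => (hh.mul (c1_contDeriv (hf n))).sub hΦc
  let D : ℕ → ℝ := fun n => (∫ s in (0:ℝ)..ℓ, q n s) / ℓ
  have hηc : ∀ n, Continuous fun s => q n s - D n := fun n => (hqc n).sub continuous_const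
  have hηp : ∀ n s, q n (s + ℓ) - D n = q n s - D n := fun n s => by
    change h (s + ℓ) * deriv (f n) (s + ℓ) - Φ (s + ℓ) - D n =
      h s * deriv (f n) s - Φ s - D n
    rw [hper, c1_perDeriv (hf n), hΦ1.2]
  have hη0 : ∀ n, ∫ s in (0:ℝ)..ℓ, (q n s - D n) = 0 := fun n => by
    rw [intervalIntegral.integral_sub ((hqc n).intervalIntegrable _ _) (by simp),
      intervalIntegral.integral_const, smul_eq_mul, sub_zero]
    change _ - ℓ * ((∫ s in (0:ℝ)..ℓ, q n s) / ℓ) = 0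
    rw [mul_div_cancel₀ _ hℓ.ne', sub_self]
  have hηsmall : ∀ ε > 0, ∃ N, ∀ n ≥ N, ∫ s in (0:ℝ)..ℓ, (q n s - D n) ^ 2 ≤ ε := by
    intro ε hε
    obtain ⟨N, hN⟩ := hY (ε / (1 + ℓ ^ 2)) (by positivity)
    refine ⟨N, fun n hn => ?_⟩
    obtain ⟨h1, h2⟩ := prim_C1p (hηc n) (hηp n) (hη0 n)
    have h3 := hN n hn _ h1
    have h4 := prim_H1n hℓ (hηc n) (hηp n) (hη0 n)
    have i1 : IntervalIntegrable (fun s => h s * deriv (f n) s *
        deriv (fun s => ∫ r in (0:ℝ)..s, (q n r - D n)) s) volume 0 ℓ :=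
      ((hh.mul (c1_contDeriv (hf n))).mul (c1_contDeriv h1)).intervalIntegrable _ _
    have i2 : IntervalIntegrable (fun s => Φ s *
        deriv (fun s => ∫ r in (0:ℝ)..s, (q n r - D n)) s) volume 0 ℓ :=
      (hΦc.mul (c1_contDeriv h1)).intervalIntegrable _ _
    rw [← hparts _ h1, ← intervalIntegral.integral_sub i1 i2] at h3
    have h5 : (∫ s in (0:ℝ)..ℓ, (h s * deriv (f n) s *
        deriv (fun s => ∫ r in (0:ℝ)..s, (q n r - D n)) s -
        Φ s * deriv (fun s => ∫ r in (0:ℝ)..s, (q n r - D n)) s)) =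
        ∫ s in (0:ℝ)..ℓ, (q n s - D n) ^ 2 := by
      have h6 : (∫ s in (0:ℝ)..ℓ, (h s * deriv (f n) s *
          deriv (fun s => ∫ r in (0:ℝ)..s, (q n r - D n)) s -
          Φ s * deriv (fun s => ∫ r in (0:ℝ)..s, (q n r - D n)) s)) =
          ∫ s in (0:ℝ)..ℓ, ((q n s - D n) ^ 2 + D n * (q n s - D n)) := by
        refine intervalIntegral.integral_congr fun s _ => ?_
        simp only [h2]
        change h s * deriv (f n) s * (h s * deriv (f n) s - Φ s - D n) -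
          Φ s * (h s * deriv (f n) s - Φ s - D n) =
          (h s * deriv (f n) s - Φ s - D n) ^ 2 + D n * (h s * deriv (f n) s - Φ s - D n)
        ring
      have i3 : IntervalIntegrable (fun s => (q n s - D n) ^ 2) volume 0 ℓ :=
        ((hηc n).pow 2).intervalIntegrable _ _
      have i4 : IntervalIntegrable (fun s => D n * (q n s - D n)) volume 0 ℓ :=
        (continuous_const.mul (hηc n)).intervalIntegrable _ _
      rw [h6, intervalIntegral.integral_add i3 i4,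
        intervalIntegral.integral_const_mul, hη0, mul_zero, add_zero]
    rw [h5] at h3
    have h7 : 0 ≤ ∫ s in (0:ℝ)..ℓ, (q n s - D n) ^ 2 :=
      intervalIntegral.integral_nonneg hℓ.le fun s _ => sq_nonneg _
    set I := ∫ s in (0:ℝ)..ℓ, (q n s - D n) ^ 2
    have h8 : I ^ 2 ≤ ε * I := by
      refine h3.trans ?_
      have := mul_le_mul_of_nonneg_left h4 (by positivity : 0 ≤ ε / (1 + ℓ ^ 2))
      refine this.trans (le_of_eq ?_)
      field_simp
    rcases h7.eq_or_lt with h9 | h9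
    · rw [← h9]; exact hε.le
    · rw [pow_two] at h8
      exact le_of_mul_le_mul_right h8 h9
  -- convergence of the constants
  have hDc : ∀ n m, (D n - D m) ^ 2 ≤ H ^ 2 / ℓ * H1n ℓ (fun s => f n s - f m s) := by
    intro n m
    have h1 : D n - D m = (∫ s in (0:ℝ)..ℓ, h s * (deriv (f n) s - deriv (f m) s)) / ℓ := by
      change (∫ s in (0:ℝ)..ℓ, q n s) / ℓ - (∫ s in (0:ℝ)..ℓ, q m s) / ℓ = _
      rw [← sub_div, ← intervalIntegral.integral_sub ((hqc n).intervalIntegrable _ _)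
        ((hqc m).intervalIntegrable _ _)]
      congr 1
      refine intervalIntegral.integral_congr fun s _ => ?_
      change (h s * deriv (f n) s - Φ s) - (h s * deriv (f m) s - Φ s) = _
      ring
    have hdc : Continuous fun s => deriv (f n) s - deriv (f m) s :=
      (c1_contDeriv (hf n)).sub (c1_contDeriv (hf m))
    have h2 := cs_int hh hdc hℓ.le
    have h3 : ∫ s in (0:ℝ)..ℓ, h s ^ 2 ≤ ∫ _ in (0:ℝ)..ℓ, H ^ 2 := by
      refine intervalIntegral.integral_mono_on hℓ.le ((hh.pow 2).intervalIntegrable _ _)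
        (by simp) fun s _ => ?_
      rw [← sq_abs]
      exact pow_le_pow_left₀ (abs_nonneg _) (hH s) 2
    rw [intervalIntegral.integral_const, smul_eq_mul, sub_zero] at h3
    have h4 : ∫ s in (0:ℝ)..ℓ, (deriv (f n) s - deriv (f m) s) ^ 2 ≤
        H1n ℓ (fun s => f n s - f m s) := by
      unfold H1n
      simp only [c1_deriv_sub (hf n) (hf m)]
      exact le_add_of_nonneg_left (intervalIntegral.integral_nonneg hℓ.le fun s _ => sq_nonneg _)
    have h5 : 0 ≤ ∫ s in (0:ℝ)..ℓ, (deriv (f n) s - deriv (f m) s) ^ 2 :=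
      intervalIntegral.integral_nonneg hℓ.le fun s _ => sq_nonneg _
    have h6 := h2.trans (mul_le_mul h3 h4 h5 (by positivity))
    rw [h1, div_pow, div_le_iff₀ (by positivity)]
    refine h6.trans (le_of_eq ?_)
    field_simp
  obtain ⟨D0, hD0⟩ : ∃ D0, Tendsto D atTop (𝓝 D0) := by
    refine cauchySeq_tendsto_of_complete (Metric.cauchySeq_iff'.2 fun ε hε => ?_)
    obtain ⟨N, hN⟩ := hcau ((ε / 2) ^ 2 / (H ^ 2 / ℓ)) (by positivity)
    refine ⟨N, fun n hn => ?_⟩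
    rw [Real.dist_eq]
    have h1 := (hDc n N).trans (mul_le_mul_of_nonneg_left (hN n hn N le_rfl)
      (by positivity : 0 ≤ H ^ 2 / ℓ))
    rw [mul_div_cancel₀ _ (by positivity : H ^ 2 / ℓ ≠ 0)] at h1
    exact (abs_le_of_sq_le_sq h1 (by positivity)).trans_lt (by linarith)
  -- the integral equation on `[0, ℓ]`
  have hGc : Continuous fun s => (Φ s + D0) / h s :=
    (hΦc.add continuous_const).div hh fun s => (hpos s).ne'
  have hint : ∀ s ∈ Icc 0 ℓ, v s - v 0 = ∫ r in (0:ℝ)..s, (Φ r + D0) / h r := by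
    intro s hs
    have h1 : Tendsto (fun n => f n s - f n 0) atTop (𝓝 (v s - v 0)) := (hv s).sub (hv 0)
    refine tendsto_nhds_unique h1 ?_
    rw [tendsto_iff_norm_sub_tendsto_zero]
    refine Metric.tendsto_atTop.2 fun ε hε => ?_
    have hc1 : 0 < ε ^ 2 / (4 * (ℓ * (K ^ 2 * (1 + 2 * ℓ)))) := by positivity
    obtain ⟨N1, hN1⟩ := hηsmall (ε ^ 2 / (16 * (ℓ * K ^ 2))) (by positivity)
    obtain ⟨N2, hN2⟩ := Metric.tendsto_atTop.1 hD0 (√(ε ^ 2 / (16 * (ℓ ^ 2 * K ^ 2))))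
      (by positivity)
    refine ⟨max N1 N2, fun n hn => ?_⟩
    rw [Real.dist_eq, sub_zero, abs_norm, Real.norm_eq_abs]
    have h2 : ∫ r in (0:ℝ)..s, deriv (f n) r = f n s - f n 0 :=
      intervalIntegral.integral_eq_sub_of_hasDerivAt (fun x _ => c1_hasDeriv (hf n) x)
        ((c1_contDeriv (hf n)).intervalIntegrable _ _)
    let r : ℝ → ℝ := fun t => 1 / h t * ((q n t - D n) + (D n - D0))
    have hrc : Continuous r := hhi.mul ((hηc n).add continuous_const)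
    have h3 : f n s - f n 0 - ∫ r in (0:ℝ)..s, (Φ r + D0) / h r = ∫ t in (0:ℝ)..s, r t := by
      rw [← h2, ← intervalIntegral.integral_sub ((c1_contDeriv (hf n)).intervalIntegrable _ _)
        (hGc.intervalIntegrable _ _)]
      refine intervalIntegral.integral_congr fun t _ => ?_
      change deriv (f n) t - (Φ t + D0) / h t =
        1 / h t * ((h t * deriv (f n) t - Φ t - D n) + (D n - D0))
      have := (hpos t).ne'
      field_simp
      ring
    rw [h3]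
    have h4 : (∫ t in (0:ℝ)..s, r t) ^ 2 ≤ ℓ * ∫ t in (0:ℝ)..ℓ, r t ^ 2 := by
      refine (cs_one hrc hs.1).trans ?_
      have h5 : ∫ t in (0:ℝ)..s, r t ^ 2 ≤ ∫ t in (0:ℝ)..ℓ, r t ^ 2 :=
        intervalIntegral.integral_mono_interval le_rfl hs.1 hs.2
          (Eventually.of_forall fun x => sq_nonneg _) ((hrc.pow 2).intervalIntegrable _ _)
      have h6 : 0 ≤ ∫ t in (0:ℝ)..s, r t ^ 2 :=
        intervalIntegral.integral_nonneg hs.1 fun s _ => sq_nonneg _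
      have h7 : s - 0 ≤ ℓ := by linarith [hs.2]
      have := hs.1
      nlinarith
    have h8 : ∫ t in (0:ℝ)..ℓ, r t ^ 2 ≤
        ∫ t in (0:ℝ)..ℓ, (2 * K ^ 2 * (q n t - D n) ^ 2 + 2 * K ^ 2 * (D n - D0) ^ 2) := by
      refine intervalIntegral.integral_mono_on hℓ.le ((hrc.pow 2).intervalIntegrable _ _)
        (((continuous_const.mul ((hηc n).pow 2)).add continuous_const).intervalIntegrable _ _)
        fun t _ => ?_
      change (1 / h t * ((q n t - D n) + (D n - D0))) ^ 2 ≤ _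
      rw [mul_pow]
      have h9 : (1 / h t) ^ 2 ≤ K ^ 2 := by
        rw [← sq_abs]
        exact pow_le_pow_left₀ (abs_nonneg _) (hK t) 2
      have h10 : ((q n t - D n) + (D n - D0)) ^ 2 ≤ 2 * (q n t - D n) ^ 2 + 2 * (D n - D0) ^ 2 := by
        nlinarith [sq_nonneg ((q n t - D n) - (D n - D0))]
      have h11 := mul_le_mul h9 h10 (sq_nonneg _) (sq_nonneg K)
      nlinarith
    have i1 : IntervalIntegrable (fun t => 2 * K ^ 2 * (q n t - D n) ^ 2) volume 0 ℓ :=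
      (continuous_const.mul ((hηc n).pow 2)).intervalIntegrable _ _
    rw [intervalIntegral.integral_add i1 (by simp), intervalIntegral.integral_const_mul,
      intervalIntegral.integral_const, smul_eq_mul, sub_zero] at h8
    have h12 := hN1 n ((le_max_left _ _).trans hn)
    have h13 : (D n - D0) ^ 2 ≤ ε ^ 2 / (16 * (ℓ ^ 2 * K ^ 2)) := by
      have := hN2 n ((le_max_right _ _).trans hn)
      rw [Real.dist_eq] at this
      rw [← sq_abs, ← Real.sq_sqrt (by positivity : 0 ≤ ε ^ 2 / (16 * (ℓ ^ 2 * K ^ 2)))]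
      exact pow_le_pow_left₀ (abs_nonneg _) this.le 2
    have h14 : (∫ t in (0:ℝ)..s, r t) ^ 2 ≤ (ε / 2) ^ 2 := by
      refine h4.trans ((mul_le_mul_of_nonneg_left h8 hℓ.le).trans ?_)
      have e1 : 2 * K ^ 2 * (∫ t in (0:ℝ)..ℓ, (q n t - D n) ^ 2) ≤
          2 * K ^ 2 * (ε ^ 2 / (16 * (ℓ * K ^ 2))) := mul_le_mul_of_nonneg_left h12 (by positivity)
      have e2 : ℓ * (2 * K ^ 2 * (D n - D0) ^ 2) ≤
          ℓ * (2 * K ^ 2 * (ε ^ 2 / (16 * (ℓ ^ 2 * K ^ 2)))) :=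
        mul_le_mul_of_nonneg_left (mul_le_mul_of_nonneg_left h13 (by positivity)) hℓ.le
      have e3 : 2 * K ^ 2 * (ε ^ 2 / (16 * (ℓ * K ^ 2))) = ε ^ 2 / (8 * ℓ) := by
        field_simp
        ring
      have e4 : ℓ * (2 * K ^ 2 * (ε ^ 2 / (16 * (ℓ ^ 2 * K ^ 2)))) = ε ^ 2 / (8 * ℓ) := by
        field_simp
        ring
      rw [e3] at e1
      rw [e4] at e2
      have e5 := mul_le_mul_of_nonneg_left (add_le_add e1 e2) hℓ.le
      refine e5.trans (le_of_eq ?_)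
      field_simp
      ring
    exact (abs_le_of_sq_le_sq h14 (by positivity)).trans_lt (by linarith)
  -- the integral equation everywhere
  have hGp : ∀ s, (Φ (s + ℓ) + D0) / h (s + ℓ) = (Φ s + D0) / h s := fun s => by
    rw [hΦ1.2, hper]
  have hG0 : ∫ r in (0:ℝ)..ℓ, (Φ r + D0) / h r = 0 := by
    rw [← hint ℓ ⟨hℓ.le, le_rfl⟩]
    have := hvper 0
    rw [zero_add] at this
    rw [this, sub_self]
  obtain ⟨hG1, hG2⟩ := prim_C1p hGc hGp hG0
  have hall : ∀ s, v s = v 0 + ∫ r in (0:ℝ)..s, (Φ r + D0) / h r := by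
    intro s
    obtain ⟨t, ht, e⟩ := exists_mem_Ico hℓ (f := fun s => v s - ∫ r in (0:ℝ)..s, (Φ r + D0) / h r)
      (fun s => by
        have e1 := hG1.2 s
        simp only at e1
        rw [hvper, e1]) s
    have h1 := hint t ⟨ht.1, ht.2.le⟩
    linarith
  refine ⟨v, fun s => Φ s + D0, ⟨hvper, fun s => by rw [hΦ1.2], fun s => ?_, fun s => ?_⟩, hUv⟩
  · rw [show v = fun s => v 0 + ∫ r in (0:ℝ)..s, (Φ r + D0) / h r from funext hall]
    have := (c1_hasDeriv hG1 s).const_add (v 0)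
    rwa [hG2] at this
  · have := (c1_hasDeriv hΦ1 s).add_const D0
    rwa [hΦ2] at this


end Pool.Agent.Lib.MP_e46711_an.H99
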