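import Pool.Agent.Lib.MP_e46711_an.H99.B4a

/-!
# Module B4, second part: functions on the strip
-/

open Set Filter Topology MeasureTheory
open scoped ContDiff

namespace Pool.Agent.Lib.MP_e46711_an.H99

open Pool.Agent.Lib.MP_e46711_an

/-! ### `L^2` -/

lemma cs_L2 {α : Type*} [MeasurableSpace α] {μ : Measure α} {f g : α → ℝ} (hf : MemLp f 2 μ)
    (hg : MemLp g 2 μ) :
    (∫ x, f x * g x ∂μ) ^ 2 ≤ (∫ x, f x ^ 2 ∂μ) * ∫ x, g x ^ 2 ∂μ := by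
  refine quad_le fun x => ?_
  have h1 : 0 ≤ ∫ s, (f s + x * g s) ^ 2 ∂μ := integral_nonneg fun s => sq_nonneg _
  have i1 : Integrable (fun s => f s ^ 2) μ := hf.integrable_sq
  have i2 : Integrable (fun s => 2 * x * (f s * g s)) μ := (hf.integrable_mul hg).const_mul _
  have i3 : Integrable (fun s => x * x * g s ^ 2) μ := hg.integrable_sq.const_mul _
  have h2 : ∫ s, (f s + x * g s) ^ 2 ∂μ =
      (∫ s, f s ^ 2 ∂μ) + 2 * x * (∫ s, f s * g s ∂μ) + x * x * ∫ s, g s ^ 2 ∂μ := by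
    have i12 : Integrable (fun s => f s ^ 2 + 2 * x * (f s * g s)) μ := i1.add i2
    rw [← integral_const_mul, ← integral_const_mul, ← integral_add i1 i2,
      ← integral_add i12 i3]
    exact integral_congr_ae (Eventually.of_forall fun s => by ring)
  rw [h2] at h1
  linarith

instance (ℓ : ℝ) : IsFiniteMeasure (muT ℓ) := by
  unfold muT
  infer_instance

lemma ae_mem (ℓ : ℝ) : ∀ᵐ z ∂muT ℓ, z.1 ∈ Ioc 0 ℓ ∧ z.2 ∈ Ioo (-1:ℝ) 1 := by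
  unfold muT
  rw [Measure.prod_restrict]
  filter_upwards [ae_restrict_mem (measurableSet_Ioc.prod measurableSet_Ioo)] with z hz
  exact hz

/-- integrals of functions of the first variable -/
lemma int_fst {ℓ : ℝ} (hℓ : 0 < ℓ) (f : ℝ → ℝ) :
    ∫ z, f z.1 ∂muT ℓ = 2 * ∫ s in (0:ℝ)..ℓ, f s := by
  have h1 := integral_prod_mul (μ := (volume : Measure ℝ).restrict (Ioc 0 ℓ))
    (ν := (volume : Measure ℝ).restrict (Ioo (-1) 1)) f (fun _ => (1:ℝ))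
  simp only [mul_one] at h1
  unfold muT
  rw [h1, intervalIntegral.integral_of_le hℓ.le]
  have h2 : ∫ _ in Ioo (-1:ℝ) 1, (1:ℝ) = 2 := by
    rw [setIntegral_const, Measure.real, Real.volume_Ioo, smul_eq_mul, mul_one,
      ENNReal.toReal_ofReal (by norm_num)]
    norm_num
  rw [h2, mul_comm]

lemma int_one {ℓ : ℝ} (hℓ : 0 < ℓ) : ∫ _, (1:ℝ) ∂muT ℓ = 2 * ℓ := by
  have := int_fst hℓ (fun _ => 1)
  simpa using this

lemma int_const {ℓ : ℝ} (hℓ : 0 < ℓ) (c : ℝ) : ∫ _, c ∂muT ℓ = 2 * ℓ * c := by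
  have := int_fst hℓ (fun _ => c)
  rw [this]
  simp
  ring

lemma memLp_fst {ℓ : ℝ} {f : ℝ → ℝ} (hf : Continuous f) {K : ℝ} (hK : ∀ s, |f s| ≤ K) :
    MemLp (fun z : ℝ × ℝ => f z.1) 2 (muT ℓ) :=
  MemLp.of_bound (hf.comp continuous_fst).aestronglyMeasurable K
    (Eventually.of_forall fun z => hK z.1)

lemma memLp_mul {ℓ : ℝ} {f g : ℝ × ℝ → ℝ} (hf : MemLp f 2 (muT ℓ))
    (hg : AEStronglyMeasurable g (muT ℓ)) {K : ℝ} (hK : ∀ᵐ z ∂muT ℓ, |g z| ≤ K) :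
    MemLp (fun z => g z * f z) 2 (muT ℓ) := by
  refine hf.of_le_mul (hg.mul hf.1) (c := K) ?_
  filter_upwards [hK] with z hz
  rw [norm_mul]
  exact mul_le_mul_of_nonneg_right hz (norm_nonneg _)

/-- bound for products with a bounded factor -/
lemma int_mul_sq_le {ℓ : ℝ} {f g : ℝ × ℝ → ℝ} (hf : MemLp f 2 (muT ℓ))
    {K : ℝ} (hK : ∀ᵐ z ∂muT ℓ, |g z| ≤ K) :
    ∫ z, (g z * f z) ^ 2 ∂muT ℓ ≤ K ^ 2 * ∫ z, f z ^ 2 ∂muT ℓ := by
  rw [← integral_const_mul]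
  refine integral_mono_of_nonneg (Eventually.of_forall fun z => sq_nonneg _)
    (hf.integrable_sq.const_mul _) ?_
  filter_upwards [hK] with z hz
  rw [mul_pow, ← sq_abs (g z)]
  exact mul_le_mul_of_nonneg_right (pow_le_pow_left₀ (abs_nonneg _) hz 2) (sq_nonneg _)

/-- Fubini -/
lemma fubini {ℓ : ℝ} {V : ℝ × ℝ → ℝ} (hV : MemLp V 2 (muT ℓ)) (hV' : MemLp (avY V) 2 (muT ℓ))
    {k : ℝ → ℝ} (hk : Continuous k) {K : ℝ} (hK : ∀ s, |k s| ≤ K) :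
    ∫ z, V z * k z.1 ∂muT ℓ = ∫ z, avY V z * k z.1 ∂muT ℓ := by
  have hkL := memLp_fst (ℓ := ℓ) hk hK
  have i1 : Integrable (fun z => V z * k z.1) (muT ℓ) := hV.integrable_mul hkL
  have i2 : Integrable (fun z => avY V z * k z.1) (muT ℓ) := hV'.integrable_mul hkL
  unfold muT at i1 i2 ⊢
  rw [integral_prod _ i1, integral_prod _ i2]
  refine integral_congr_ae (Eventually.of_forall fun s => ?_)
  change ∫ y in Ioo (-1:ℝ) 1, V (s, y) * k s = ∫ y in Ioo (-1:ℝ) 1, avY V (s, y) * k s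
  rw [integral_mul_const, integral_mul_const]
  congr 1
  have h1 : ∫ y in Ioo (-1:ℝ) 1, avY V (s, y) = 2 * ((∫ y in (-1:ℝ)..1, V (s, y)) / 2) := by
    change ∫ _ in Ioo (-1:ℝ) 1, ((∫ y in (-1:ℝ)..1, V (s, y)) / 2) = _
    rw [setIntegral_const, Measure.real, Real.volume_Ioo, smul_eq_mul,
      ENNReal.toReal_ofReal (by norm_num)]
    norm_num
  rw [h1, intervalIntegral.integral_of_le (by norm_num), integral_Ioc_eq_integral_Ioo]
  ring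

/-! ### Test functions of the first variable -/

lemma c1per_fst {ℓ : ℝ} {ψ : ℝ → ℝ} (hψ : C1p ℓ ψ) : C1per ℓ (fun z => ψ z.1) :=
  ⟨hψ.1.comp contDiff_fst, fun s _ => hψ.2 s⟩

lemma fderiv_fst {ℓ : ℝ} {ψ : ℝ → ℝ} (hψ : C1p ℓ ψ) (z : ℝ × ℝ) (w : ℝ × ℝ) :
    fderiv ℝ (fun z : ℝ × ℝ => ψ z.1) z w = w.1 * deriv ψ z.1 := by
  have h1 : HasFDerivAt (fun z : ℝ × ℝ => ψ z.1)
      ((ContinuousLinearMap.toSpanSingleton ℝ (deriv ψ z.1)).comp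
        (ContinuousLinearMap.fst ℝ ℝ ℝ)) z :=
    (c1_hasDeriv hψ z.1).hasFDerivAt.comp z hasFDerivAt_fst
  rw [h1.fderiv]
  simp

lemma dS_fst {ℓ : ℝ} {ψ : ℝ → ℝ} (hψ : C1p ℓ ψ) (z : ℝ × ℝ) :
    dS (fun z : ℝ × ℝ => ψ z.1) z = deriv ψ z.1 := by
  rw [dS, fderiv_fst hψ]; simp

lemma dY_fst {ℓ : ℝ} {ψ : ℝ → ℝ} (hψ : C1p ℓ ψ) (z : ℝ × ℝ) :
    dY (fun z : ℝ × ℝ => ψ z.1) z = 0 := by
  rw [dY, fderiv_fst hψ]; simp

/-! ### Slices -/

lemma slice_c1p {ℓ : ℝ} {Φ : ℝ × ℝ → ℝ} (hΦ : C1per ℓ Φ) (y : ℝ) :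
    C1p ℓ (fun s => Φ (s, y)) ∧ ∀ s, deriv (fun s => Φ (s, y)) s = dS Φ (s, y) := by
  have hd : ∀ s, HasDerivAt (fun s => Φ (s, y)) (dS Φ (s, y)) s := by
    intro s
    have h1 : HasFDerivAt Φ (fderiv ℝ Φ (s, y)) (s, y) :=
      ((hΦ.1.differentiable one_ne_zero) (s, y)).hasFDerivAt
    have h2 : HasDerivAt (fun s : ℝ => (s, y)) ((1:ℝ), (0:ℝ)) s :=
      (hasDerivAt_id s).prodMk (hasDerivAt_const s y)
    exact h1.comp_hasDerivAt s h2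
  refine ⟨⟨?_, fun s => hΦ.2 s y⟩, fun s => (hd s).deriv⟩
  exact hΦ.1.comp (contDiff_id.prodMk contDiff_const)

lemma slice {ℓ : ℝ} (hℓ : 0 < ℓ) (hB : H1TBasic) {u v : ℝ → ℝ}
    (H : H1T ℓ (fun z => u z.1) (fun z => v z.1) (fun _ => 0)) {ε : ℝ} (hε : 0 < ε) :
    ∃ φ, C1p ℓ φ ∧ ∫ z, (φ z.1 - u z.1) ^ 2 ∂muT ℓ ≤ ε ∧
      ∫ z, (deriv φ z.1 - v z.1) ^ 2 ∂muT ℓ ≤ ε := by
  obtain ⟨φ, hφ, hlim⟩ := H.approx
  obtain ⟨n, hn⟩ := (hlim.eventually (gt_mem_nhds hε)).exists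
  have hb := (hB ℓ hℓ).1 (φ n) (hφ n)
  let F : ℝ × ℝ → ℝ := fun z => (φ n z - u z.1) ^ 2 + (dS (φ n) z - v z.1) ^ 2
  have j1 : Integrable (fun z => (φ n z - u z.1) ^ 2) (muT ℓ) := (hb.mU.sub H.mU).integrable_sq
  have j2 : Integrable (fun z => (dS (φ n) z - v z.1) ^ 2) (muT ℓ) :=
    (hb.mV.sub H.mV).integrable_sq
  have j3 : Integrable (fun z => (dY (φ n) z - 0) ^ 2) (muT ℓ) := (hb.mW.sub H.mW).integrable_sq
  have hF : Integrable F (muT ℓ) := j1.add j2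
  have hF1 : ∫ z, F z ∂muT ℓ ≤ ε := by
    refine le_trans (integral_mono hF ((j1.add j2).add j3) fun z => ?_) hn.le
    change F z ≤ (φ n z - u z.1) ^ 2 + (dS (φ n) z - v z.1) ^ 2 + (dY (φ n) z - 0) ^ 2
    have := sq_nonneg (dY (φ n) z - 0)
    change (φ n z - u z.1) ^ 2 + (dS (φ n) z - v z.1) ^ 2 ≤ _
    linarith
  -- a good slice
  have hvol : (volume : Measure ℝ) (Ioo (-1:ℝ) 1) = ENNReal.ofReal 2 := by
    rw [Real.volume_Ioo]; norm_num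
  have hF2 : ∫ z, F z ∂muT ℓ = ∫ y in Ioo (-1:ℝ) 1, ∫ s in Ioc 0 ℓ, F (s, y) := by
    unfold muT at hF ⊢
    exact integral_prod_symm F hF
  have hI : IntegrableOn (fun y => ∫ s in Ioc 0 ℓ, F (s, y)) (Ioo (-1:ℝ) 1) := by
    unfold muT at hF
    exact hF.integral_prod_right
  obtain ⟨y, -, hy⟩ := exists_le_setAverage (s := Ioo (-1:ℝ) 1)
    (f := fun y => ∫ s in Ioc 0 ℓ, F (s, y)) (by rw [hvol]; simp) (by rw [hvol]; simp) hI
  rw [setAverage_eq, Measure.real, hvol, ENNReal.toReal_ofReal (by norm_num), ← hF2,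
    smul_eq_mul] at hy
  obtain ⟨h1, h2⟩ := slice_c1p (hφ n) y
  obtain ⟨K1, -, hK1⟩ := bdd_per hℓ (c1_cont h1) h1.2
  obtain ⟨K2, -, hK2⟩ := bdd_per hℓ (c1_contDeriv h1) (c1_perDeriv h1)
  have hL1 := memLp_fst (ℓ := ℓ) (c1_cont h1) hK1
  have hL2 := memLp_fst (ℓ := ℓ) (c1_contDeriv h1) hK2
  have k1 : Integrable (fun z : ℝ × ℝ => (φ n (z.1, y) - u z.1) ^ 2) (muT ℓ) :=
    (hL1.sub H.mU).integrable_sq
  have k2 : Integrable (fun z : ℝ × ℝ => (deriv (fun s => φ n (s, y)) z.1 - v z.1) ^ 2) (muT ℓ) :=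
    (hL2.sub H.mV).integrable_sq
  have h3 : (∫ z, (φ n (z.1, y) - u z.1) ^ 2 ∂muT ℓ) +
      ∫ z, (deriv (fun s => φ n (s, y)) z.1 - v z.1) ^ 2 ∂muT ℓ ≤ ε := by
    rw [← integral_add k1 k2]
    have h4 := int_fst hℓ (fun s => (φ n (s, y) - u s) ^ 2 +
      (deriv (fun s => φ n (s, y)) s - v s) ^ 2)
    rw [h4, intervalIntegral.integral_of_le hℓ.le]
    have h5 : ∫ s in Ioc 0 ℓ, ((φ n (s, y) - u s) ^ 2 +
        (deriv (fun s => φ n (s, y)) s - v s) ^ 2) = ∫ s in Ioc 0 ℓ, F (s, y) := by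
      refine integral_congr_ae (Eventually.of_forall fun s => ?_)
      simp only [h2]
      rfl
    rw [h5]
    linarith
  have h6 : 0 ≤ ∫ z, (φ n (z.1, y) - u z.1) ^ 2 ∂muT ℓ := integral_nonneg fun z => sq_nonneg _
  have h7 : 0 ≤ ∫ z, (deriv (fun s => φ n (s, y)) z.1 - v z.1) ^ 2 ∂muT ℓ :=
    integral_nonneg fun z => sq_nonneg _
  exact ⟨_, h1, by linarith, by linarith⟩

/-! ### The conformal weight -/

lemma abs_exp_sub_one_le' (x : ℝ) : |Real.exp x - 1| ≤ |x| * Real.exp |x| := by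
  rcases le_total 0 x with h | h
  · have h1 : 1 ≤ Real.exp x := Real.one_le_exp h
    rw [abs_of_nonneg (by linarith), abs_of_nonneg h]
    have h2 := Real.one_sub_le_exp_neg x
    have h3 : Real.exp x * Real.exp (-x) = 1 := by rw [← Real.exp_add]; simp
    nlinarith [Real.exp_pos x]
  · have h1 : Real.exp x ≤ 1 := Real.exp_le_one_iff.2 h
    rw [abs_of_nonpos (by linarith), abs_of_nonpos h]
    have h2 := Real.add_one_le_exp x
    have h3 : 1 ≤ Real.exp (-x) := Real.one_le_exp (by linarith)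
    nlinarith

lemma om_bound {ℓ : ℝ} (hℓ : 0 < ℓ) {h : ℝ → ℝ} {H : ℝ} (hH0 : 0 < H) (hH : ∀ s, |h s| ≤ H) :
    ∃ M > 0, ∀ δ ∈ Ioc (0:ℝ) 1, ∀ᵐ z ∂muT ℓ, |om ℓ h δ z - 1| ≤ M * δ := by
  refine ⟨4 * Real.pi * H / ℓ * Real.exp (4 * Real.pi * H / ℓ), by positivity, fun δ hδ => ?_⟩
  filter_upwards [ae_mem ℓ] with z hz
  have hz2 : |z.2| ≤ 1 := abs_le.2 ⟨hz.2.1.le, hz.2.2.le⟩
  have hδ0 := hδ.1
  have h1 : |4 * Real.pi * δ * h z.1 * z.2 / ℓ| ≤ 4 * Real.pi * H / ℓ * δ := by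
    rw [abs_div, abs_mul, abs_mul, abs_mul, abs_of_pos hℓ, abs_of_pos hδ0,
      abs_of_pos (by positivity : 0 < 4 * Real.pi), div_mul_eq_mul_div]
    refine div_le_div_of_nonneg_right ?_ hℓ.le
    have h2 : |h z.1| * |z.2| ≤ H * 1 := mul_le_mul (hH _) hz2 (abs_nonneg _) hH0.le
    have h3 : 0 ≤ 4 * Real.pi * δ := by positivity
    nlinarith
  rw [om]
  refine (abs_exp_sub_one_le' _).trans ?_
  have h4 : 4 * Real.pi * H / ℓ * δ ≤ 4 * Real.pi * H / ℓ :=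
    mul_le_of_le_one_right (by positivity) hδ.2
  have h5 := mul_le_mul h1 (Real.exp_le_exp.2 (h1.trans h4)) (Real.exp_pos _).le (by positivity)
  refine h5.trans (le_of_eq (by ring))

lemma continuous_om {ℓ δ : ℝ} {h : ℝ → ℝ} (hh : Continuous h) : Continuous (om ℓ h δ) := by
  unfold om
  exact Real.continuous_exp.comp ((((continuous_const.mul (hh.comp continuous_fst)).mul
    continuous_snd)).div_const _)

end Pool.Agent.Lib.MP_e46711_an.H99
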