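import Pool.Agent.Lib.MP_e46711_an.H99.B4b

/-!
# Module B4, third part: the equation tested with functions of the first variable
-/

open Set Filter Topology MeasureTheory
open scoped ContDiff

namespace Pool.Agent.Lib.MP_e46711_an.H99

open Pool.Agent.Lib.MP_e46711_an

/-! ### The nonlinearity in `L^2` -/

lemma memLp_gg {p ℓ : ℝ} (hp : 0 < p) (hp1 : p < 1) {U : ℝ × ℝ → ℝ} (hU : MemLp U 2 (muT ℓ)) :
    MemLp (fun z => gg p (U z)) 2 (muT ℓ) := by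
  have h0 : MemLp (fun _ : ℝ × ℝ => (1:ℝ)) 2 (muT ℓ) := memLp_const 1
  have h2 : MemLp (fun z => |U z|) 2 (muT ℓ) := hU.abs
  have h3 : MemLp (fun z => 2 * |U z|) 2 (muT ℓ) := h2.const_mul 2
  have h1 : MemLp (fun z => 1 + 2 * |U z|) 2 (muT ℓ) := h0.add h3
  refine h1.mono' ((continuous_gg hp hp1).comp_aestronglyMeasurable hU.1)
    (Eventually.of_forall fun z => ?_)
  exact abs_gg_le hp hp1 _

/-- The difference of the nonlinear terms. -/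
lemma nonlin_le {p ℓ : ℝ} (hp : 0 < p) (hp1 : p < 1) (hℓ : 0 < ℓ) {h : ℝ → ℝ}
    (hh : Continuous h) {δ M : ℝ} (hM : ∀ᵐ z ∂muT ℓ, |om ℓ h δ z - 1| ≤ M)
    {U X : ℝ × ℝ → ℝ} (hU : MemLp U 2 (muT ℓ)) (hX : MemLp X 2 (muT ℓ))
    {η C : ℝ} (hC : ∀ x y, |gg p x - gg p y| ≤ η + C * |x - y|) :
    MemLp (fun z => gg p (U z) * om ℓ h δ z - gg p (X z)) 2 (muT ℓ) ∧
    ∫ z, (gg p (U z) * om ℓ h δ z - gg p (X z)) ^ 2 ∂muT ℓ ≤
      4 * M ^ 2 * (2 * ℓ + 4 * ∫ z, U z ^ 2 ∂muT ℓ) + 8 * ℓ * η ^ 2 +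
        4 * C ^ 2 * ∫ z, (U z - X z) ^ 2 ∂muT ℓ := by
  have hgU := memLp_gg hp hp1 hU
  have hgX := memLp_gg hp hp1 hX
  have hom : MemLp (fun z => gg p (U z) * om ℓ h δ z) 2 (muT ℓ) := by
    have h1 : MemLp (fun z => om ℓ h δ z * gg p (U z)) 2 (muT ℓ) := by
      refine memLp_mul hgU (continuous_om hh).aestronglyMeasurable (K := M + 1) ?_
      filter_upwards [hM] with z hz
      have := abs_add_le (om ℓ h δ z - 1) 1
      rw [sub_add_cancel, abs_one] at this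
      linarith
    simpa only [mul_comm] using h1
  have hL := hom.sub hgX
  refine ⟨hL, ?_⟩
  have i1 : Integrable (fun z => 4 * M ^ 2 * (1 + 4 * U z ^ 2)) (muT ℓ) :=
    ((integrable_const 1).add (hU.integrable_sq.const_mul 4)).const_mul _
  have i2 : Integrable (fun z => 4 * C ^ 2 * (U z - X z) ^ 2) (muT ℓ) :=
    (hU.sub hX).integrable_sq.const_mul _
  have i0 : Integrable (fun _ : ℝ × ℝ => 4 * η ^ 2) (muT ℓ) := integrable_const _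
  have i3 : Integrable (fun z => 4 * M ^ 2 * (1 + 4 * U z ^ 2) + 4 * η ^ 2) (muT ℓ) := i1.add i0
  have i4 : Integrable (fun z => 4 * U z ^ 2) (muT ℓ) := hU.integrable_sq.const_mul 4
  have h2 : ∫ z, (gg p (U z) * om ℓ h δ z - gg p (X z)) ^ 2 ∂muT ℓ ≤
      ∫ z, (4 * M ^ 2 * (1 + 4 * U z ^ 2) + 4 * η ^ 2 + 4 * C ^ 2 * (U z - X z) ^ 2) ∂muT ℓ := by
    refine integral_mono_ae hL.integrable_sq (i3.add i2) ?_
    filter_upwards [hM] with z hz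
    show (gg p (U z) * om ℓ h δ z - gg p (X z)) ^ 2 ≤
      4 * M ^ 2 * (1 + 4 * U z ^ 2) + 4 * η ^ 2 + 4 * C ^ 2 * (U z - X z) ^ 2
    have e1 := abs_gg_le hp hp1 (U z)
    have e2 := hC (U z) (X z)
    have e3 : (gg p (U z) * (om ℓ h δ z - 1)) ^ 2 ≤ (M * (1 + 2 * |U z|)) ^ 2 := by
      rw [← sq_abs]
      refine pow_le_pow_left₀ (abs_nonneg _) ?_ 2
      rw [abs_mul, mul_comm]
      exact mul_le_mul hz e1 (abs_nonneg _) ((abs_nonneg _).trans hz)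
    have e4 : (gg p (U z) - gg p (X z)) ^ 2 ≤ (η + C * |U z - X z|) ^ 2 := by
      rw [← sq_abs]
      exact pow_le_pow_left₀ (abs_nonneg _) e2 2
    have e5 : (M * (1 + 2 * |U z|)) ^ 2 ≤ 2 * M ^ 2 * (1 + 4 * U z ^ 2) := by
      have : (1 + 2 * |U z|) ^ 2 ≤ 2 * (1 + 4 * U z ^ 2) := by
        nlinarith [sq_nonneg (1 - 2 * |U z|), sq_abs (U z)]
      nlinarith [sq_nonneg M]
    have e6 : (η + C * |U z - X z|) ^ 2 ≤ 2 * η ^ 2 + 2 * C ^ 2 * (U z - X z) ^ 2 := by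
      nlinarith [sq_nonneg (η - C * |U z - X z|), sq_abs (U z - X z)]
    have e7 : gg p (U z) * om ℓ h δ z - gg p (X z) =
        gg p (U z) * (om ℓ h δ z - 1) + (gg p (U z) - gg p (X z)) := by ring
    rw [e7]
    nlinarith [sq_nonneg (gg p (U z) * (om ℓ h δ z - 1) - (gg p (U z) - gg p (X z)))]
  refine h2.trans (le_of_eq ?_)
  have k1 : ∫ z, 4 * C ^ 2 * (U z - X z) ^ 2 ∂muT ℓ = 4 * C ^ 2 * ∫ z, (U z - X z) ^ 2 ∂muT ℓ :=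
    integral_const_mul _ _
  have k2 : ∫ z, 4 * M ^ 2 * (1 + 4 * U z ^ 2) ∂muT ℓ =
      4 * M ^ 2 * ∫ z, (1 + 4 * U z ^ 2) ∂muT ℓ := integral_const_mul _ _
  have k3 : ∫ z, 4 * U z ^ 2 ∂muT ℓ = 4 * ∫ z, U z ^ 2 ∂muT ℓ := integral_const_mul _ _
  rw [integral_add i3 i2, integral_add i1 i0, k1, k2, integral_add (integrable_const 1) i4, k3,
    int_one hℓ, int_const hℓ]
  ring

/-! ### The defect -/

lemma defect_eq {p lam ℓ δ : ℝ} (hℓ : 0 < ℓ) {h : ℝ → ℝ}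
    (hh : Continuous h) (hpos : ∀ s, 0 < h s) {H : ℝ} (hH : ∀ s, |h s| ≤ H)
    {U V W : ℝ × ℝ → ℝ} (hsol : WSol p lam ℓ h δ U V W) (hV' : MemLp (avY V) 2 (muT ℓ))
    {φ ψ : ℝ → ℝ} (hφ : C1p ℓ φ) (hψ : C1p ℓ ψ)
    (i2 : Integrable (fun z => deriv h z.1 * z.2 * W z * deriv ψ z.1) (muT ℓ))
    (i3 : Integrable (fun z => h z.1 * (gg p (U z) * om ℓ h δ z - gg p (φ z.1)) * ψ z.1) (muT ℓ))
    (i4 : Integrable (fun z => h z.1 * gg p (φ z.1) * ψ z.1) (muT ℓ)) :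
    2 * defect p lam ℓ h φ ψ =
      (∫ z, h z.1 * (deriv φ z.1 - avY V z) * deriv ψ z.1 ∂muT ℓ) +
      (∫ z, deriv h z.1 * z.2 * W z * deriv ψ z.1 ∂muT ℓ) +
      lam * ∫ z, h z.1 * (gg p (U z) * om ℓ h δ z - gg p (φ z.1)) * ψ z.1 ∂muT ℓ := by
  obtain ⟨K1, -, hK1⟩ := bdd_per hℓ (c1_contDeriv hψ) (c1_perDeriv hψ)
  obtain ⟨K2, hK20, hK2⟩ := bdd_per hℓ (c1_contDeriv hφ) (c1_perDeriv hφ)
  have hkc : Continuous fun s => h s * deriv ψ s := hh.mul (c1_contDeriv hψ)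
  have hkb : ∀ s, |h s * deriv ψ s| ≤ H * K1 := fun s => by
    rw [abs_mul]
    exact mul_le_mul (hH s) (hK1 s) (abs_nonneg _) ((abs_nonneg _).trans (hH s))
  have hkL := memLp_fst (ℓ := ℓ) hkc hkb
  have hφL := memLp_fst (ℓ := ℓ) (c1_contDeriv hφ) hK2
  have hfub := fubini hsol.h1.mV hV' hkc hkb
  have j1 : Integrable (fun z => V z * (h z.1 * deriv ψ z.1)) (muT ℓ) :=
    hsol.h1.mV.integrable_mul hkL
  have j2 : Integrable (fun z => avY V z * (h z.1 * deriv ψ z.1)) (muT ℓ) :=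
    hV'.integrable_mul hkL
  have j3 : Integrable (fun z => deriv φ z.1 * (h z.1 * deriv ψ z.1)) (muT ℓ) :=
    hφL.integrable_mul hkL
  -- the weak equation
  have heq := hsol.eq (fun z => ψ z.1) (c1per_fst hψ)
  have e1 : 2 * Bil ℓ h δ V W (dS fun z => ψ z.1) (dY fun z => ψ z.1) =
      (∫ z, V z * (h z.1 * deriv ψ z.1) ∂muT ℓ) -
        ∫ z, deriv h z.1 * z.2 * W z * deriv ψ z.1 ∂muT ℓ := by
    rw [Bil, ← integral_const_mul, ← integral_sub j1 i2]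
    refine integral_congr_ae (Eventually.of_forall fun z => ?_)
    simp only [G1, G2, dS_fst hψ, dY_fst hψ]
    have := (hpos z.1).ne'
    field_simp
    ring
  have e2 : 2 * Inu ℓ h δ (fun z => gg p (U z) * ψ z.1) =
      (∫ z, h z.1 * (gg p (U z) * om ℓ h δ z - gg p (φ z.1)) * ψ z.1 ∂muT ℓ) +
        ∫ z, h z.1 * gg p (φ z.1) * ψ z.1 ∂muT ℓ := by
    rw [Inu, ← integral_const_mul, ← integral_add i3 i4]
    refine integral_congr_ae (Eventually.of_forall fun z => ?_)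
    simp only
    ring
  have e3 : 2 * defect p lam ℓ h φ ψ =
      (∫ z, deriv φ z.1 * (h z.1 * deriv ψ z.1) ∂muT ℓ) -
        lam * ∫ z, h z.1 * gg p (φ z.1) * ψ z.1 ∂muT ℓ := by
    have a1 := int_fst hℓ (fun s => deriv φ s * (h s * deriv ψ s))
    have a2 := int_fst hℓ (fun s => h s * gg p (φ s) * ψ s)
    rw [a1, a2, defect]
    have a3 : ∫ s in (0:ℝ)..ℓ, deriv φ s * (h s * deriv ψ s) =
        ∫ s in (0:ℝ)..ℓ, h s * deriv φ s * deriv ψ s :=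
      intervalIntegral.integral_congr fun s _ => by ring
    rw [a3]
    ring
  have e4 : ∫ z, h z.1 * (deriv φ z.1 - avY V z) * deriv ψ z.1 ∂muT ℓ =
      (∫ z, deriv φ z.1 * (h z.1 * deriv ψ z.1) ∂muT ℓ) -
        ∫ z, avY V z * (h z.1 * deriv ψ z.1) ∂muT ℓ := by
    rw [← integral_sub j3 j2]
    exact integral_congr_ae (Eventually.of_forall fun z => by ring)
  rw [e3, e4, ← hfub]
  have e5 : 2 * Bil ℓ h δ V W (dS fun z => ψ z.1) (dY fun z => ψ z.1) =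
      lam * (2 * Inu ℓ h δ (fun z => gg p (U z) * ψ z.1)) := by
    rw [heq]
    ring
  rw [e1, e2] at e5
  linarith

/-- The defect is small. -/
lemma defect_le {p lam ℓ δ : ℝ} (hp : 0 < p) (hp1 : p < 1) (hℓ : 0 < ℓ) {h : ℝ → ℝ}
    (hh : Continuous h) (hpos : ∀ s, 0 < h s) {H H' : ℝ} (hH : ∀ s, |h s| ≤ H)
    (hhd : Continuous (deriv h)) (hH' : ∀ s, |deriv h s| ≤ H')
    {U V W : ℝ × ℝ → ℝ} (hsol : WSol p lam ℓ h δ U V W) (hV' : MemLp (avY V) 2 (muT ℓ))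
    {φ ψ : ℝ → ℝ} (hφ : C1p ℓ φ) (hψ : C1p ℓ ψ)
    (hN : MemLp (fun z => gg p (U z) * om ℓ h δ z - gg p (φ z.1)) 2 (muT ℓ)) :
    defect p lam ℓ h φ ψ ^ 2 ≤ (2 * (H ^ 2 * (∫ z, (deriv φ z.1 - avY V z) ^ 2 ∂muT ℓ) +
      H' ^ 2 * (∫ z, W z ^ 2 ∂muT ℓ) +
      lam ^ 2 * H ^ 2 * ∫ z, (gg p (U z) * om ℓ h δ z - gg p (φ z.1)) ^ 2 ∂muT ℓ)) *
        H1n ℓ ψ := by
  obtain ⟨K1, -, hK1⟩ := bdd_per hℓ (c1_contDeriv hψ) (c1_perDeriv hψ)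
  obtain ⟨K2, -, hK2⟩ := bdd_per hℓ (c1_contDeriv hφ) (c1_perDeriv hφ)
  obtain ⟨K3, -, hK3⟩ := bdd_per hℓ (c1_cont hψ) hψ.2
  obtain ⟨K4, -, hK4⟩ := bdd_per hℓ (c1_cont hφ) hφ.2
  have hψL := memLp_fst (ℓ := ℓ) (c1_cont hψ) hK3
  have hψ'L := memLp_fst (ℓ := ℓ) (c1_contDeriv hψ) hK1
  have hφ'L := memLp_fst (ℓ := ℓ) (c1_contDeriv hφ) hK2
  have hφL := memLp_fst (ℓ := ℓ) (c1_cont hφ) hK4
  have hHae : ∀ᵐ z ∂muT ℓ, |h z.1| ≤ H := Eventually.of_forall fun z => hH z.1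
  have hH'ae : ∀ᵐ z ∂muT ℓ, |deriv h z.1 * z.2| ≤ H' := by
    filter_upwards [ae_mem ℓ] with z hz
    have hz2 : |z.2| ≤ 1 := abs_le.2 ⟨hz.2.1.le, hz.2.2.le⟩
    rw [abs_mul]
    calc |deriv h z.1| * |z.2| ≤ H' * 1 :=
        mul_le_mul (hH' _) hz2 (abs_nonneg _) ((abs_nonneg _).trans (hH' z.1))
      _ = H' := mul_one _
  have hA := hφ'L.sub hV'
  have m1 : MemLp (fun z => h z.1 * (deriv φ z.1 - avY V z)) 2 (muT ℓ) :=
    memLp_mul hA (hh.comp continuous_fst).aestronglyMeasurable hHae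
  have m2 : MemLp (fun z => deriv h z.1 * z.2 * W z) 2 (muT ℓ) :=
    memLp_mul hsol.h1.mW ((hhd.comp continuous_fst).mul continuous_snd).aestronglyMeasurable hH'ae
  have m3 : MemLp (fun z => h z.1 * (gg p (U z) * om ℓ h δ z - gg p (φ z.1))) 2 (muT ℓ) :=
    memLp_mul hN (hh.comp continuous_fst).aestronglyMeasurable hHae
  have m4 : MemLp (fun z => h z.1 * gg p (φ z.1)) 2 (muT ℓ) :=
    memLp_mul (memLp_gg hp hp1 hφL) (hh.comp continuous_fst).aestronglyMeasurable hHae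
  have e := defect_eq hℓ hh hpos hH hsol hV' hφ hψ
    (m2.integrable_mul hψ'L) (m3.integrable_mul hψL) (m4.integrable_mul hψL)
  have c1 := cs_L2 m1 hψ'L
  have c2 := cs_L2 m2 hψ'L
  have c3 := cs_L2 m3 hψL
  have b1 := int_mul_sq_le hA hHae
  have b2 := int_mul_sq_le hsol.h1.mW hH'ae
  have b3 := int_mul_sq_le hN hHae
  have n1 : ∫ z, deriv ψ z.1 ^ 2 ∂muT ℓ = 2 * ∫ s in (0:ℝ)..ℓ, deriv ψ s ^ 2 :=
    int_fst hℓ (fun s => deriv ψ s ^ 2)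
  have n2 : ∫ z, ψ z.1 ^ 2 ∂muT ℓ = 2 * ∫ s in (0:ℝ)..ℓ, ψ s ^ 2 :=
    int_fst hℓ (fun s => ψ s ^ 2)
  have p1 : 0 ≤ ∫ s in (0:ℝ)..ℓ, deriv ψ s ^ 2 :=
    intervalIntegral.integral_nonneg hℓ.le fun s _ => sq_nonneg _
  have p2 : 0 ≤ ∫ s in (0:ℝ)..ℓ, ψ s ^ 2 :=
    intervalIntegral.integral_nonneg hℓ.le fun s _ => sq_nonneg _
  have q1 : 0 ≤ ∫ z, (deriv φ z.1 - avY V z) ^ 2 ∂muT ℓ := integral_nonneg fun z => sq_nonneg _
  have q2 : 0 ≤ ∫ z, W z ^ 2 ∂muT ℓ := integral_nonneg fun z => sq_nonneg _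
  have q3 : 0 ≤ ∫ z, (gg p (U z) * om ℓ h δ z - gg p (φ z.1)) ^ 2 ∂muT ℓ :=
    integral_nonneg fun z => sq_nonneg _
  rw [n1] at c1 c2
  rw [n2] at c3
  unfold H1n
  set I1 := ∫ z, h z.1 * (deriv φ z.1 - avY V z) * deriv ψ z.1 ∂muT ℓ
  set I2 := ∫ z, deriv h z.1 * z.2 * W z * deriv ψ z.1 ∂muT ℓ
  set I3 := ∫ z, h z.1 * (gg p (U z) * om ℓ h δ z - gg p (φ z.1)) * ψ z.1 ∂muT ℓ
  set A := ∫ z, (deriv φ z.1 - avY V z) ^ 2 ∂muT ℓ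
  set Bw := ∫ z, W z ^ 2 ∂muT ℓ
  set N := ∫ z, (gg p (U z) * om ℓ h δ z - gg p (φ z.1)) ^ 2 ∂muT ℓ
  set P1 := ∫ s in (0:ℝ)..ℓ, deriv ψ s ^ 2
  set P2 := ∫ s in (0:ℝ)..ℓ, ψ s ^ 2
  have r1 : I1 ^ 2 ≤ H ^ 2 * A * (2 * (P2 + P1)) :=
    c1.trans (mul_le_mul b1 (by linarith) (by positivity) (by positivity))
  have r2 : I2 ^ 2 ≤ H' ^ 2 * Bw * (2 * (P2 + P1)) :=
    c2.trans (mul_le_mul b2 (by linarith) (by positivity) (by positivity))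
  have r3 : I3 ^ 2 ≤ H ^ 2 * N * (2 * (P2 + P1)) :=
    c3.trans (mul_le_mul b3 (by linarith) (by positivity) (by positivity))
  have r4 : lam ^ 2 * I3 ^ 2 ≤ lam ^ 2 * (H ^ 2 * N * (2 * (P2 + P1))) :=
    mul_le_mul_of_nonneg_left r3 (sq_nonneg _)
  have r5 : (2 * defect p lam ℓ h φ ψ) ^ 2 ≤ 3 * (I1 ^ 2 + I2 ^ 2 + lam ^ 2 * I3 ^ 2) := by
    rw [e]
    nlinarith [sq_nonneg (I1 - I2), sq_nonneg (I1 - lam * I3), sq_nonneg (I2 - lam * I3)]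
  have r6 : 0 ≤ (H ^ 2 * A + H' ^ 2 * Bw + lam ^ 2 * H ^ 2 * N) * (P2 + P1) := by positivity
  nlinarith

end Pool.Agent.Lib.MP_e46711_an.H99
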